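import Mathlib

/-!
# Taylor bounds for the normalised derivatives of a real polynomial

`h m` is the `m`-th normalised (Hasse) derivative; all bounds are in terms of `sup |h k|` on `[-1, 1]`
and of the values of the lower `h m` at the end points.
-/

set_option autoImplicit false

namespace Pool.Agent.HFin

open Set

/-- `h m` are the normalised derivatives `f^(m)/m!`. -/
def HSeq (h : ℕ → ℝ → ℝ) : Prop := ∀ m x, HasDerivAt (h m) ((m + 1) * h (m + 1) x) x

/-- The reflected sequence `(-1)^m h m (-x)`. -/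
theorem HSeq.refl {h : ℕ → ℝ → ℝ} (hh : HSeq h) : HSeq (fun m x => (-1) ^ m * h m (-x)) := by
  intro m x
  have h1 := (hh m (-x)).comp x (hasDerivAt_neg x)
  have h2 := h1.const_mul ((-1:ℝ) ^ m)
  have e : (-1:ℝ) ^ m * (((m:ℝ) + 1) * h (m + 1) (-x) * -1) =
      (m + 1) * ((-1) ^ (m + 1) * h (m + 1) (-x)) := by
    rw [pow_succ]
    ring
  rw [e] at h2
  exact h2

/-- If `|f'| ≤ g'` on `[y, x]` and `f y = g y = 0` then `|f x| ≤ g x`. -/
theorem abs_le_of_deriv {f f' g g' : ℝ → ℝ} {y x : ℝ} (hyx : y ≤ x)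
    (hf : ∀ t, HasDerivAt f (f' t) t) (hg : ∀ t, HasDerivAt g (g' t) t)
    (h : ∀ t ∈ Icc y x, |f' t| ≤ g' t) (hf0 : f y = 0) (hg0 : g y = 0) : |f x| ≤ g x := by
  have key : ∀ s : ℝ, |s| = 1 → s * f x ≤ g x := by
    intro s hs
    have hd : ∀ t, HasDerivAt (fun t => g t - s * f t) (g' t - s * f' t) t := fun t =>
      (hg t).sub ((hf t).const_mul s)
    have hm : MonotoneOn (fun t => g t - s * f t) (Icc y x) := by
      apply monotoneOn_of_deriv_nonneg (convex_Icc y x)
      · exact fun t _ => (hd t).continuousAt.continuousWithinAt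
      · exact fun t _ => (hd t).differentiableAt.differentiableWithinAt
      · intro t ht
        rw [interior_Icc] at ht
        rw [(hd t).deriv]
        have h1 := h t ⟨ht.1.le, ht.2.le⟩
        have h2 : s * f' t ≤ |s * f' t| := le_abs_self _
        rw [abs_mul, hs, one_mul] at h2
        linarith
    have := hm (left_mem_Icc.2 hyx) (right_mem_Icc.2 hyx) hyx
    simp only [hf0, hg0] at this
    linarith
  refine abs_le.2 ⟨?_, ?_⟩
  · have := key (-1) (by simp)
    linarith
  · have := key 1 (by simp)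
    linarith

theorem choose_id (m i : ℕ) : (((m + 1 + i).choose (i + 1) : ℕ) : ℝ) * (i + 1) =
    (m + 1) * ((m + 1 + i).choose i : ℕ) := by
  have h := Nat.choose_succ_right_eq (m + 1 + i) i
  have e : m + 1 + i - i = m + 1 := by omega
  rw [e] at h
  have h2 : (((m + 1 + i).choose (i + 1) * (i + 1) : ℕ) : ℝ) =
      (((m + 1 + i).choose i * (m + 1) : ℕ) : ℝ) := by rw [h]
  push_cast at h2
  linarith

/-- Taylor polynomial of `h m` of order `j` at `y`. -/
noncomputable def tay (h : ℕ → ℝ → ℝ) (y : ℝ) (m j : ℕ) (x : ℝ) : ℝ :=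
  ∑ i ∈ Finset.range j, ((m + i).choose i : ℝ) * (x - y) ^ i * h (m + i) y

theorem tay_zero (h : ℕ → ℝ → ℝ) (y : ℝ) (m : ℕ) (x : ℝ) : tay h y m 0 x = 0 := by simp [tay]

theorem tay_self (h : ℕ → ℝ → ℝ) (y : ℝ) (m j : ℕ) : tay h y m (j + 1) y = h m y := by
  unfold tay
  rw [Finset.sum_range_succ', Finset.sum_eq_zero]
  · simp
  · intro i _
    simp

theorem tay_hasDerivAt (h : ℕ → ℝ → ℝ) (y : ℝ) (m j : ℕ) (x : ℝ) :
    HasDerivAt (tay h y m (j + 1)) ((m + 1) * tay h y (m + 1) j x) x := by
  unfold tay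
  have h1 : ∀ i ∈ Finset.range (j + 1), HasDerivAt
      (fun x => ((m + i).choose i : ℝ) * (x - y) ^ i * h (m + i) y)
      (((m + i).choose i : ℝ) * (i * (x - y) ^ (i - 1)) * h (m + i) y) x := by
    intro i _
    have h2 := ((hasDerivAt_id x).sub_const y).pow i
    have h3 := (h2.const_mul ((m + i).choose i : ℝ)).mul_const (h (m + i) y)
    simpa using h3
  have h4 := HasDerivAt.fun_sum h1
  have e : ∑ i ∈ Finset.range (j + 1), ((m + i).choose i : ℝ) * (i * (x - y) ^ (i - 1)) *
      h (m + i) y = (m + 1) * ∑ i ∈ Finset.range j, ((m + 1 + i).choose i : ℝ) * (x - y) ^ i *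
        h (m + 1 + i) y := by
    rw [Finset.sum_range_succ', Finset.mul_sum]
    simp only [Nat.cast_zero, zero_mul, mul_zero, add_zero]
    refine Finset.sum_congr rfl fun i _ => ?_
    have e1 : m + (i + 1) = m + 1 + i := by omega
    rw [e1, Nat.add_sub_cancel]
    have := choose_id m i
    push_cast
    linear_combination ((x - y) ^ i * h (m + 1 + i) y) * this
  rw [e] at h4
  exact h4

theorem taylor_up {h : ℕ → ℝ → ℝ} (hh : HSeq h) {y b M : ℝ} (j : ℕ) : ∀ (m : ℕ) (x : ℝ),
    y ≤ x → x ≤ b → (∀ t ∈ Icc y b, |h (m + j) t| ≤ M) →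
    |h m x - tay h y m j x| ≤ ((m + j).choose j : ℝ) * (x - y) ^ j * M := by
  induction j with
  | zero =>
    intro m x hy hb hM
    rw [tay_zero, sub_zero]
    simpa using hM x ⟨hy, hb⟩
  | succ j ih =>
    intro m x hy hb hM
    have hg : ∀ t, HasDerivAt (fun t => ((m + (j + 1)).choose (j + 1) : ℝ) * (t - y) ^ (j + 1) * M)
        ((m + 1) * (((m + 1 + j).choose j : ℝ) * (t - y) ^ j * M)) t := by
      intro t
      have h2 := ((hasDerivAt_id t).sub_const y).pow (j + 1)
      have h3 := (h2.const_mul ((m + (j + 1)).choose (j + 1) : ℝ)).mul_const M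
      have e1 : m + (j + 1) = m + 1 + j := by omega
      rw [e1] at h3 ⊢
      have e2 : ((m + 1 + j).choose (j + 1) : ℝ) * ((j + 1 : ℕ) * (t - y) ^ j) * M =
          (m + 1) * (((m + 1 + j).choose j : ℝ) * (t - y) ^ j * M) := by
        have := choose_id m j
        push_cast
        linear_combination ((t - y) ^ j * M) * this
      simp only [id, Nat.add_sub_cancel, mul_one] at h3
      rw [e2] at h3
      exact h3
    refine abs_le_of_deriv hy (f := fun t => h m t - tay h y m (j + 1) t)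
      (f' := fun t => (m + 1) * h (m + 1) t - (m + 1) * tay h y (m + 1) j t)
      (fun t => (hh m t).sub (tay_hasDerivAt h y m j t)) hg ?_ ?_ ?_
    · intro t ht
      have e3 : ((m:ℝ) + 1) * h (m + 1) t - (m + 1) * tay h y (m + 1) j t =
          (m + 1) * (h (m + 1) t - tay h y (m + 1) j t) := by ring
      rw [e3, abs_mul, abs_of_nonneg (by positivity : (0:ℝ) ≤ (m:ℝ) + 1)]
      refine mul_le_mul_of_nonneg_left ?_ (by positivity)
      refine ih (m + 1) t ht.1 (ht.2.trans hb) ?_
      intro u hu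
      have e4 : m + 1 + j = m + (j + 1) := by omega
      rw [e4]
      exact hM u hu
    · show h m y - tay h y m (j + 1) y = 0
      rw [tay_self, sub_self]
    · show ((m + (j + 1)).choose (j + 1) : ℝ) * (y - y) ^ (j + 1) * M = 0
      simp

/-- Two-sided form: base point `y`, all `x` in `[a, b]`. -/
theorem taylor_abs {h : ℕ → ℝ → ℝ} (hh : HSeq h) {y a b M : ℝ} (j m : ℕ) {x : ℝ}
    (hy : y ∈ Icc a b) (hx : x ∈ Icc a b) (hM : ∀ t ∈ Icc a b, |h (m + j) t| ≤ M) :
    |h m x - tay h y m j x| ≤ ((m + j).choose j : ℝ) * |x - y| ^ j * M := by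
  rcases le_total y x with hyx | hxy
  · rw [abs_of_nonneg (by linarith : 0 ≤ x - y)]
    exact taylor_up hh j m x hyx hx.2 fun t ht => hM t ⟨hy.1.trans ht.1, ht.2⟩
  · rw [abs_of_nonpos (by linarith : x - y ≤ 0)]
    have h1 := taylor_up hh.refl (y := -y) (b := -a) (M := M) j m (-x) (by linarith)
      (by linarith [hx.1]) (by
        intro t ht
        rw [abs_mul, abs_pow, abs_neg, abs_one, one_pow, one_mul]
        exact hM (-t) ⟨by linarith [ht.2], by linarith [ht.1, hy.2]⟩)
    have e1 : tay (fun m x => (-1) ^ m * h m (-x)) (-y) m j (-x) = (-1) ^ m * tay h y m j x := by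
      unfold tay
      rw [Finset.mul_sum]
      refine Finset.sum_congr rfl fun i _ => ?_
      have e2 : -x - -y = (-1) * (x - y) := by ring
      have e3 : ((-1:ℝ)) ^ i * (-1) ^ i = 1 := by rw [← mul_pow]; norm_num
      simp only [neg_neg]
      rw [e2, mul_pow, pow_add]
      linear_combination ((m + i).choose i * (x - y) ^ i * (-1) ^ m * h (m + i) y) * e3
    simp only [e1, neg_neg] at h1
    rw [← mul_sub, abs_mul, abs_pow, abs_neg, abs_one, one_pow, one_mul] at h1
    have e4 : -x - -y = -(x - y) := by ring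
    rw [e4] at h1
    exact h1

end Pool.Agent.HFin
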