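import Pool.Agent.HStar.Asm
import Pool.Agent.HMidB.HermC
import Pool.Agent.HFin.Seq

/-!
# End values of the normalised derivatives of `ω`
-/

set_option autoImplicit false

namespace Pool.Agent.HFin

open Complex Set ComplexConjugate Polynomial Pool.Agent.HHalf Pool.Agent.HStar

/-- `h m t = H_m ω (t)`. -/
noncomputable def hv {N : ℕ} (L : Fin N → ℂ) (m : ℕ) (t : ℝ) : ℝ := (hasseDeriv m (omR L)).eval t

theorem hseq_poly (p : ℝ[X]) : HSeq (fun m t => (hasseDeriv m p).eval t) := by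
  intro m x
  have h := (hasseDeriv m p).hasDerivAt x
  have e : derivative (hasseDeriv m p) = (m + 1) • hasseDeriv (m + 1) p := by
    have h1 := LinearMap.congr_fun (hasseDeriv_comp (R := ℝ) 1 m) p
    rw [LinearMap.comp_apply, hasseDeriv_one', LinearMap.smul_apply, Nat.choose_one_right,
      add_comm 1 m] at h1
    exact h1
  rw [e, nsmul_eq_mul, eval_mul, eval_natCast] at h
  push_cast at h
  exact h

theorem hseq_hv {N : ℕ} (L : Fin N → ℂ) : HSeq (hv L) := hseq_poly (omR L)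

/-- All coefficients are nonnegative. -/
def NN (p : ℝ[X]) : Prop := ∀ m, 0 ≤ p.coeff m

theorem NN.mul {p q : ℝ[X]} (hp : NN p) (hq : NN q) : NN (p * q) := by
  intro m
  rw [coeff_mul]
  exact Finset.sum_nonneg fun i _ => mul_nonneg (hp _) (hq _)

theorem NN.add {p q : ℝ[X]} (hp : NN p) (hq : NN q) : NN (p + q) := by
  intro m
  rw [coeff_add]
  exact add_nonneg (hp m) (hq m)

theorem NN.C {a : ℝ} (ha : 0 ≤ a) : NN (Polynomial.C a) := by
  intro m
  rw [coeff_C]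
  split_ifs
  · exact ha
  · exact le_rfl

theorem NN.X : NN Polynomial.X := by
  intro m
  rw [coeff_X]
  split_ifs <;> norm_num

theorem NN.prod {ι : Type*} (s : Finset ι) (f : ι → ℝ[X]) (h : ∀ i ∈ s, NN (f i)) :
    NN (∏ i ∈ s, f i) := by
  classical
  induction s using Finset.induction_on with
  | empty =>
    rw [Finset.prod_empty]
    have : (1 : ℝ[X]) = Polynomial.C 1 := C_1.symm
    rw [this]
    exact NN.C zero_le_one
  | insert a s ha ih =>
    rw [Finset.prod_insert ha]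
    exact (h a (Finset.mem_insert_self _ _)).mul (ih fun i hi => h i (Finset.mem_insert_of_mem hi))

/-- The factor of the pair at distance `t` from `1`. -/
noncomputable def f1 {N : ℕ} (L : Fin N → ℂ) (a : Fin N) : ℝ[X] :=
  (X + C (1 - (L a).re)) ^ 2 + C ((L a).im ^ 2)

theorem taylor_one_omR {N : ℕ} (L : Fin N → ℂ) : taylor 1 (omR L) = ∏ a, f1 L a := by
  have h1 : ∀ s : Finset (Fin N), taylor (1:ℝ) (∏ a ∈ s, ((X - Polynomial.C (L a).re) ^ 2 +
      Polynomial.C ((L a).im ^ 2))) = ∏ a ∈ s, f1 L a := by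
    classical
    intro s
    induction s using Finset.induction_on with
    | empty => simp
    | insert a s ha ih =>
      rw [Finset.prod_insert ha, Finset.prod_insert ha, taylor_mul, ih]
      congr 1
      unfold f1
      rw [taylor_apply]
      simp only [add_comp, pow_comp, sub_comp, X_comp, C_comp, map_sub, C_1]
      ring
  exact h1 Finset.univ

theorem f1_coeff0 {N : ℕ} (L : Fin N → ℂ) (a : Fin N) : (f1 L a).coeff 0 = normSq (1 - L a) := by
  rw [coeff_zero_eq_eval_zero]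
  unfold f1
  simp [normSq_apply]
  ring

theorem re_le_one {z : ℂ} (hz : ‖z‖ ≤ 1) : z.re ≤ 1 := (Complex.re_le_norm z).trans hz

theorem neg_one_le_re {z : ℂ} (hz : ‖z‖ ≤ 1) : -1 ≤ z.re := by
  have := (abs_le.1 ((Complex.abs_re_le_norm z).trans hz)).1
  exact this

theorem NN_f1 {N : ℕ} {L : Fin N → ℂ} (hL : ∀ a, ‖L a‖ ≤ 1) (a : Fin N) : NN (f1 L a) := by
  unfold f1
  have h1 : NN (X + C (1 - (L a).re)) := NN.X.add (NN.C (by linarith [re_le_one (hL a)]))
  rw [pow_two]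
  exact (h1.mul h1).add (NN.C (sq_nonneg _))

/-- `H_m ω(1) ≥ 0`. -/
theorem hv_one_nonneg {N : ℕ} {L : Fin N → ℂ} (hL : ∀ a, ‖L a‖ ≤ 1) (m : ℕ) : 0 ≤ hv L m 1 := by
  unfold hv
  rw [← taylor_coeff, taylor_one_omR]
  exact NN.prod _ _ (fun a _ => NN_f1 hL a) m

/-- Reflection of the list. -/
theorem omR_neg {N : ℕ} (L : Fin N → ℂ) : omR (fun a => - L a) = (omR L).comp (-X) := by
  unfold omR
  rw [Polynomial.prod_comp]
  refine Finset.prod_congr rfl fun a _ => ?_
  simp only [add_comp, pow_comp, sub_comp, X_comp, C_comp, neg_re, neg_im, map_neg, neg_sq]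
  ring

theorem hasse_comp_neg (m : ℕ) (p : ℝ[X]) (t : ℝ) :
    (hasseDeriv m (p.comp (-X))).eval t = (-1) ^ m * (hasseDeriv m p).eval (-t) := by
  induction p using Polynomial.induction_on' with
  | add p q hp hq =>
    rw [add_comp, map_add, eval_add, hp, hq, map_add, eval_add]
    ring
  | monomial n a =>
    rw [← C_mul_X_pow_eq_monomial, mul_comp, C_comp, pow_comp, X_comp]
    have e : (C a : ℝ[X]) * (-X) ^ n = monomial n (a * (-1) ^ n) := by
      rw [neg_pow, ← C_mul_X_pow_eq_monomial, C_mul]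
      have : (C ((-1:ℝ) ^ n) : ℝ[X]) = (-1) ^ n := by simp
      rw [this]
      ring
    rw [e, C_mul_X_pow_eq_monomial, hasseDeriv_monomial, hasseDeriv_monomial, eval_monomial,
      eval_monomial]
    rcases le_or_gt m n with hmn | hmn
    · obtain ⟨q, rfl⟩ : ∃ q, n = m + q := ⟨n - m, by omega⟩
      rw [Nat.add_sub_cancel_left, neg_pow t q]
      ring
    · rw [Nat.choose_eq_zero_of_lt hmn]
      simp

theorem hv_neg {N : ℕ} (L : Fin N → ℂ) (m : ℕ) (t : ℝ) :
    hv (fun a => - L a) m t = (-1) ^ m * hv L m (-t) := by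
  unfold hv
  rw [omR_neg, hasse_comp_neg]

/-- `(-1)^m H_m ω(-1) ≥ 0`. -/
theorem hv_neg_one_nonneg {N : ℕ} {L : Fin N → ℂ} (hL : ∀ a, ‖L a‖ ≤ 1) (m : ℕ) :
    0 ≤ (-1) ^ m * hv L m (-1) := by
  rw [← hv_neg]
  exact hv_one_nonneg (fun a => by rw [norm_neg]; exact hL a) m

/-- The bound of the end values in terms of `|H_k ω|` at the same end. -/
theorem hv_end {N : ℕ} {L : Fin N → ℂ} (hL : ∀ a, ‖L a‖ ≤ 1) {i k : ℕ} (hik : i ≤ k)
    (hk : k ≤ 2 * N) {t : ℝ} (ht : |t| = 1) :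
    ((2 * N).choose k : ℝ) * |hv L i t| ≤ 2 ^ (k - i) * ((2 * N).choose i : ℝ) * |hv L k t| := by
  have hcard : Fintype.card (Fin (2 * N)) = Fintype.card (Fin N × Bool) := by
    simp only [Fintype.card_fin, Fintype.card_prod, Fintype.card_bool]
    omega
  have h := Pool.Agent.HMidB.om_end (z := zL L ∘ Fintype.equivOfCardEq hcard)
    (fun i => norm_zL hL _) hik hk (c := (t:ℂ)) (by rw [Complex.norm_real, Real.norm_eq_abs, ht])
  rw [om_comp, hasse_real, hasse_real, Complex.norm_real, Complex.norm_real] at h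
  exact h

/-- Decomposition at the pair `R`: the coefficients at `1`. -/
theorem corner_aux {N : ℕ} {L : Fin N → ℂ} (hL : ∀ a, ‖L a‖ ≤ 1) (R : Fin N) :
    ∃ r : ℕ → ℝ, (∀ m, 0 ≤ r m) ∧ hv L 0 1 = normSq (1 - L R) * r 0 ∧
      hv L 1 1 = normSq (1 - L R) * r 1 + 2 * (1 - (L R).re) * r 0 ∧
      ∀ m, hv L (m + 2) 1 = normSq (1 - L R) * r (m + 2) + 2 * (1 - (L R).re) * r (m + 1) + r m := by
  classical
  refine ⟨fun m => (∏ a ∈ Finset.univ.erase R, f1 L a).coeff m, fun m =>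
    NN.prod _ _ (fun a _ => NN_f1 hL a) m, ?_⟩
  have e : taylor 1 (omR L) = f1 L R * ∏ a ∈ Finset.univ.erase R, f1 L a := by
    rw [taylor_one_omR, Finset.mul_prod_erase _ _ (Finset.mem_univ R)]
  have e2 : f1 L R = X ^ 2 + C (2 * (1 - (L R).re)) * X + C (normSq (1 - L R)) := by
    unfold f1
    have : normSq (1 - L R) = (1 - (L R).re) ^ 2 + (L R).im ^ 2 := by
      rw [normSq_apply]
      simp
      ring
    rw [this]
    simp only [map_mul, map_add, map_pow, map_sub, C_1, map_ofNat]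
    ring
  set q := ∏ a ∈ Finset.univ.erase R, f1 L a with hq
  have e3 : f1 L R * q = q * X ^ 2 + C (2 * (1 - (L R).re)) * (q * X) +
      C (normSq (1 - L R)) * q := by
    rw [e2]; ring
  unfold hv
  refine ⟨?_, ?_, fun m => ?_⟩
  · rw [← taylor_coeff, e, e3]
    simp [coeff_X_pow, mul_coeff_zero]
  · rw [← taylor_coeff, e, e3, coeff_add, coeff_add, coeff_C_mul, coeff_C_mul, coeff_mul_X_pow',
      if_neg (by norm_num)]
    have e4 : (q * X).coeff 1 = q.coeff 0 := coeff_mul_X q 0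
    rw [e4]
    ring
  · rw [← taylor_coeff, e, e3, coeff_add, coeff_add, coeff_C_mul, coeff_C_mul, coeff_mul_X_pow',
      if_pos (by omega), show m + 2 = (m + 1) + 1 by rfl, coeff_mul_X,
      show m + 1 + 1 - 2 = m by omega]
    ring

theorem corner_R {z : ℂ} (hz : ‖z‖ ≤ 1) {x : ℝ} (hR : (1 + x) / 2 ≤ z.re) :
    normSq (1 - z) ≤ 1 - x ∧ 2 * (1 - z.re) ≤ 1 - x := by
  refine ⟨?_, by linarith⟩
  have h1 : normSq z ≤ 1 := by
    rw [Complex.normSq_eq_norm_sq]
    exact pow_le_one₀ (norm_nonneg _) hz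
  rw [normSq_apply] at h1 ⊢
  simp only [sub_re, one_re, sub_im, one_im]
  nlinarith

/-- CORNER: `ω(1) ≤ (1-x) H_2 ω(1)` if a pair has real part `≥ (1+x)/2`. -/
theorem hv_corner0 {N : ℕ} {L : Fin N → ℂ} (hL : ∀ a, ‖L a‖ ≤ 1) {x : ℝ} {R : Fin N}
    (hR : (1 + x) / 2 ≤ (L R).re) : hv L 0 1 ≤ (1 - x) * hv L 2 1 := by
  obtain ⟨r, hr, e0, -, e2⟩ := corner_aux hL R
  obtain ⟨c1, c2⟩ := corner_R (hL R) hR
  have h0 := normSq_nonneg (1 - L R)
  have h1 : 0 ≤ 2 * (1 - (L R).re) := by linarith [re_le_one (hL R)]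
  have e2' := e2 0
  rw [e0, e2']
  have a1 := mul_le_mul_of_nonneg_right c1 (hr 0)
  have a2 := mul_nonneg h0 (hr 2)
  have a3 := mul_nonneg h1 (hr 1)
  have hx : 0 ≤ 1 - x := h0.trans c1
  have a4 := mul_nonneg hx (add_nonneg a2 a3)
  simp only [zero_add] at *
  linarith

/-- CORNER: `H_1 ω(1) ≤ (1-x) (H_2 ω(1) + H_3 ω(1))`. -/
theorem hv_corner1 {N : ℕ} {L : Fin N → ℂ} (hL : ∀ a, ‖L a‖ ≤ 1) {x : ℝ} {R : Fin N}
    (hR : (1 + x) / 2 ≤ (L R).re) : hv L 1 1 ≤ (1 - x) * (hv L 2 1 + hv L 3 1) := by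
  obtain ⟨r, hr, -, e1, e2⟩ := corner_aux hL R
  obtain ⟨c1, c2⟩ := corner_R (hL R) hR
  have h0 := normSq_nonneg (1 - L R)
  have h1 : 0 ≤ 2 * (1 - (L R).re) := by linarith [re_le_one (hL R)]
  have e2' := e2 0
  have e3' := e2 1
  have hx : 0 ≤ 1 - x := h0.trans c1
  have a1 := mul_le_mul_of_nonneg_right c1 (hr 1)
  have a2 := mul_le_mul_of_nonneg_right c2 (hr 0)
  have a3 := mul_nonneg hx (mul_nonneg h0 (hr 2))
  have a4 := mul_nonneg hx (mul_nonneg h1 (hr 1))
  have a5 := mul_nonneg hx (mul_nonneg h0 (hr 3))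
  have a6 := mul_nonneg hx (mul_nonneg h1 (hr 2))
  norm_num at e2' e3'
  rw [e1, e2', e3']
  linarith

end Pool.Agent.HFin
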