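import Pool.Agent.HStar.BPCert

/-!
# The moments `V_j` for a real point `x ∈ [0, 1]` and nodes with real sum

`L_+ = N - S`, `L_- = N + S` with `N = n + 1` nodes of sum `S`.
-/

set_option autoImplicit false

namespace Pool.Agent.HFin

open MeasureTheory Set Filter Topology Pool.Agent.HHalf ComplexConjugate Pool.Agent.HStar

section

variable {n : ℕ} {z : Fin (n + 1) → ℂ} {x : ℝ} {ξ : ℂ} {S : ℝ}

theorem norm_real_le (hx0 : 0 ≤ x) (hx1 : x ≤ 1) : ‖(x:ℂ)‖ ≤ 1 := by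
  rw [Complex.norm_real, Real.norm_of_nonneg hx0]
  exact hx1

/-- Second differences of the moments. -/
theorem VV_quad (hz : ∀ i, ‖z i‖ ≤ 1) (hx0 : 0 ≤ x) (hx1 : x ≤ 1) (hξ : ‖ξ‖ < 1) (j : ℕ)
    (ρ : ℝ) : 0 ≤ VV (AA z x ξ) (j + 2) - 2 * ρ * VV (AA z x ξ) (j + 1) +
      ρ ^ 2 * VV (AA z x ξ) j := by
  have hc : 0 < 1 - ‖ξ‖ := by linarith
  have hA := AA_re (ξ := ξ) hz (norm_real_le hx0 hx1)
  have i0 := int_GG hc hA j
  have i1 := int_GG hc hA (j + 1)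
  have i2 := int_GG hc hA (j + 2)
  have e : VV (AA z x ξ) (j + 2) - 2 * ρ * VV (AA z x ξ) (j + 1) + ρ ^ 2 * VV (AA z x ξ) j =
      ∫ X, (GG (AA z x ξ) (j + 2) X - 2 * ρ * GG (AA z x ξ) (j + 1) X +
        ρ ^ 2 * GG (AA z x ξ) j X) ∂mu (n + 2) := by
    have a1 := integral_add (i2.sub (i1.const_mul (2 * ρ))) (i0.const_mul (ρ ^ 2))
    have a2 := integral_sub i2 (i1.const_mul (2 * ρ))
    simp only [Pi.sub_apply] at a1
    unfold VV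
    rw [a1, a2, integral_const_mul, integral_const_mul]
  rw [e]
  refine integral_nonneg_of_ae ?_
  filter_upwards [mu_pos (n + 2)] with X hX
  have g0 := GG_nonneg (A := AA z x ξ) j hX
  have g1 := X0_GG hc hA j hX
  have g2 := X0_GG hc hA (j + 1) hX
  show 0 ≤ GG (AA z x ξ) (j + 2) X - 2 * ρ * GG (AA z x ξ) (j + 1) X +
    ρ ^ 2 * GG (AA z x ξ) j X
  have e2 : GG (AA z x ξ) (j + 2) X - 2 * ρ * GG (AA z x ξ) (j + 1) X +
      ρ ^ 2 * GG (AA z x ξ) j X = (X 0 / ‖LL (AA z x ξ) X‖ - ρ) ^ 2 * GG (AA z x ξ) j X := by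
    rw [← g2, ← g1]
    ring
  rw [e2]
  positivity

/-- Log-convexity: `V_{j+1}^2 ≤ V_j V_{j+2}`. -/
theorem VV_logconv (hz : ∀ i, ‖z i‖ ≤ 1) (hx0 : 0 ≤ x) (hx1 : x ≤ 1) (hξ : ‖ξ‖ < 1) (j : ℕ) :
    VV (AA z x ξ) (j + 1) ^ 2 ≤ VV (AA z x ξ) j * VV (AA z x ξ) (j + 2) := by
  have h := VV_quad (ξ := ξ) hz hx0 hx1 hξ j
  have h0 := VV_nonneg (A := AA z x ξ) j
  have h1 := VV_nonneg (A := AA z x ξ) (j + 1)
  have h2 := VV_nonneg (A := AA z x ξ) (j + 2)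
  rcases h0.eq_or_lt with h3 | h3
  · -- `V_j = 0` forces `V_{j+1} = 0`
    by_contra hcon
    rw [← h3, zero_mul, not_le] at hcon
    have h4 : 0 < VV (AA z x ξ) (j + 1) := by
      rcases h1.eq_or_lt with h5 | h5
      · rw [← h5] at hcon
        norm_num at hcon
      · exact h5
    have h6 := h ((VV (AA z x ξ) (j + 2) + 1) / (2 * VV (AA z x ξ) (j + 1)))
    rw [← h3, mul_zero, add_zero] at h6
    have h7 : 2 * ((VV (AA z x ξ) (j + 2) + 1) / (2 * VV (AA z x ξ) (j + 1))) *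
        VV (AA z x ξ) (j + 1) = VV (AA z x ξ) (j + 2) + 1 := by
      field_simp
    rw [h7] at h6
    linarith
  · have h6 := h (VV (AA z x ξ) (j + 1) / VV (AA z x ξ) j)
    have h7 : VV (AA z x ξ) (j + 2) - 2 * (VV (AA z x ξ) (j + 1) / VV (AA z x ξ) j) *
        VV (AA z x ξ) (j + 1) + (VV (AA z x ξ) (j + 1) / VV (AA z x ξ) j) ^ 2 * VV (AA z x ξ) j =
        VV (AA z x ξ) (j + 2) - VV (AA z x ξ) (j + 1) ^ 2 / VV (AA z x ξ) j := by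
      field_simp
      ring
    rw [h7, sub_nonneg, div_le_iff₀ h3] at h6
    linarith

/-- The quotients `V_{j+1}/V_j` increase. -/
theorem VV_mono (hz : ∀ i, ‖z i‖ ≤ 1) (hx0 : 0 ≤ x) (hx1 : x ≤ 1) (hξ : ‖ξ‖ < 1) {j : ℕ} {R : ℝ}
    (hR : 0 ≤ R) (h : VV (AA z x ξ) (j + 2) ≤ R * VV (AA z x ξ) (j + 1)) :
    VV (AA z x ξ) (j + 1) ≤ R * VV (AA z x ξ) j := by
  have h0 := VV_nonneg (A := AA z x ξ) j
  have h1 := VV_nonneg (A := AA z x ξ) (j + 1)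
  have h2 := VV_logconv (ξ := ξ) hz hx0 hx1 hξ j
  rcases h1.eq_or_lt with h3 | h3
  · rw [← h3]
    positivity
  · have h4 := mul_le_mul_of_nonneg_left h h0
    nlinarith

/-- `V_{j+1} ≤ V_j/(1-x)`. -/
theorem VV_cap_real (hz : ∀ i, ‖z i‖ ≤ 1) (hx0 : 0 ≤ x) (hx1 : x ≤ 1) (hξ : ‖ξ‖ < 1) (j : ℕ) :
    (1 - x) * VV (AA z x ξ) (j + 1) ≤ VV (AA z x ξ) j := by
  have h := VV_cap hz (norm_real_le hx0 hx1) hξ j
  have h1 := VV_nonneg (A := AA z x ξ) (j + 1)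
  have h2 : (1 - ξ * (x:ℂ)).re = 1 - ξ.re * x := by simp
  have h3 : ξ.re ≤ 1 := (Complex.re_le_norm ξ).trans hξ.le
  rw [h2] at h
  nlinarith [mul_nonneg hx0 (sub_nonneg.2 h3)]

/-- `δ = r (2 - |1 - ξ x|) ≥ 1 - x^2`. -/
theorem delta_ge (hx0 : 0 ≤ x) (hx1 : x ≤ 1) (hξ : ‖ξ‖ < 1) :
    1 - x ^ 2 ≤ (1 - ξ * (x:ℂ)).re * (2 - ‖1 - ξ * (x:ℂ)‖) := by
  set A : ℂ := 1 - ξ * (x:ℂ) with hA
  have h1 : ‖1 - A‖ ≤ x := by
    rw [hA, sub_sub_cancel, norm_mul, Complex.norm_real, Real.norm_of_nonneg hx0]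
    nlinarith
  have h2 : ‖1 - A‖ ^ 2 = 1 - 2 * A.re + ‖A‖ ^ 2 := by
    rw [← Complex.normSq_eq_norm_sq, ← Complex.normSq_eq_norm_sq, Complex.normSq_apply,
      Complex.normSq_apply]
    simp
    ring
  have h3 : |‖(1:ℂ)‖ - ‖A‖| ≤ ‖1 - A‖ := abs_norm_sub_norm_le _ _
  rw [norm_one] at h3
  have h4 := abs_le.1 (h3.trans h1)
  set m := ‖A‖
  have hm : 0 ≤ m := norm_nonneg _
  have h5 : ‖1 - A‖ ^ 2 ≤ x ^ 2 := pow_le_pow_left₀ (norm_nonneg _) h1 2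
  have h6 : (m ^ 2 + 1 - x ^ 2) / 2 ≤ A.re := by linarith
  have h7 : m ≤ 2 := by linarith [h4.1]
  have h8 := mul_le_mul_of_nonneg_right h6 (by linarith : 0 ≤ 2 - m)
  have h9 : 0 ≤ x ^ 2 - (1 - m) ^ 2 := by nlinarith [h4.1, h4.2]
  nlinarith [mul_nonneg hm h9]

/-- RECURRENCE (R') for real `x ≥ 0` and nodes with the real sum `S`: `L_± = n + 1 ∓ S`,
`D ≤ L_+ - 1 - (2j+3)x`, `D ≤ L_- - 1 + x`. -/
theorem rec_real (hz : ∀ i, ‖z i‖ ≤ 1) (hx0 : 0 ≤ x) (hx1 : x ≤ 1) (hξ : ‖ξ‖ < 1)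
    (hS : ∑ i, z i = (S:ℂ)) (j : ℕ) {D : ℝ} (h1 : D ≤ (n + 1) - S - 1 - (2 * j + 3) * x)
    (h2 : D ≤ (n + 1) + S - 1 + x) :
    D * VV (AA z x ξ) (j + 1) + (j + 2) * (1 - x ^ 2) * VV (AA z x ξ) (j + 2) ≤
      (j + 1) * VV (AA z x ξ) j := by
  have hc : 0 < 1 - ‖ξ‖ := by linarith
  have hxn := norm_real_le hx0 hx1
  have hA := AA_re (ξ := ξ) hz hxn
  have hA2 := AA_norm hz hxn hξ.le
  have h := rec_succ hc hA hA2 j
  have hS1 : ∑ i, (AA z x ξ i).re = (1 - ξ * (x:ℂ)).re + ((n + 1) - ξ.re * S) := by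
    rw [Fin.sum_univ_succ, AA_zero]
    congr 1
    have e1 : ∀ i : Fin (n + 1), (AA z x ξ i.succ).re = 1 - (ξ * z i).re := by
      intro i
      rw [AA_succ, Complex.sub_re, Complex.one_re]
    rw [Finset.sum_congr rfl fun i _ => e1 i, Finset.sum_sub_distrib, ← Complex.re_sum,
      ← Finset.mul_sum, hS]
    simp
  rw [hS1, AA_zero] at h
  have hr : (1 - ξ * (x:ℂ)).re = 1 - ξ.re * x := by simp
  have hn : ‖2 * (j:ℂ) + 4 - (j + 1) * (1 - ξ * (x:ℂ))‖ ≤ (j + 3) + (j + 1) * x := by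
    have e2 : 2 * (j:ℂ) + 4 - (j + 1) * (1 - ξ * (x:ℂ)) =
        (((j:ℝ) + 3 : ℝ) : ℂ) + ((((j:ℝ) + 1) * x : ℝ) : ℂ) * ξ := by push_cast; ring
    rw [e2]
    refine (norm_add_le _ _).trans ?_
    rw [norm_mul, Complex.norm_real, Complex.norm_real, Real.norm_of_nonneg (by positivity),
      Real.norm_of_nonneg (by positivity)]
    have : ((j:ℝ) + 1) * x * ‖ξ‖ ≤ ((j:ℝ) + 1) * x * 1 :=
      mul_le_mul_of_nonneg_left hξ.le (by positivity)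
    linarith
  have hd := delta_ge hx0 hx1 hξ
  have hc1 : ξ.re ≤ 1 := (Complex.re_le_norm ξ).trans hξ.le
  have hc2 : -1 ≤ ξ.re := by
    have := (abs_le.1 ((Complex.abs_re_le_norm ξ).trans hξ.le)).1
    exact this
  have hV1 := VV_nonneg (A := AA z x ξ) (j + 1)
  have hV2 := VV_nonneg (A := AA z x ξ) (j + 2)
  have hb : D ≤ (1 - ξ * (x:ℂ)).re + ((n + 1) - ξ.re * S) + (j + 1) * (1 - ξ * (x:ℂ)).re -
      ‖2 * (j:ℂ) + 4 - (j + 1) * (1 - ξ * (x:ℂ))‖ := by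
    rw [hr]
    have e3 := mul_le_mul_of_nonneg_left h1 (by linarith : 0 ≤ 1 + ξ.re)
    have e4 := mul_le_mul_of_nonneg_left h2 (by linarith : 0 ≤ 1 - ξ.re)
    linarith
  have k1 := mul_le_mul_of_nonneg_right hb hV1
  have k2 := mul_le_mul_of_nonneg_right (mul_le_mul_of_nonneg_left hd
    (by positivity : (0:ℝ) ≤ (j:ℝ) + 2)) hV2
  linarith

/-- JENSEN STEP. -/
theorem VV_step (hz : ∀ i, ‖z i‖ ≤ 1) (hx0 : 0 ≤ x) (hx1 : x ≤ 1) (hξ : ‖ξ‖ < 1)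
    (hS : ∑ i, z i = (S:ℂ)) (j : ℕ) {D R : ℝ} (h1 : D ≤ (n + 1) - S - 1 - (2 * j + 3) * x)
    (h2 : D ≤ (n + 1) + S - 1 + x) (hR : 0 ≤ R)
    (h3 : (j:ℝ) + 1 ≤ (j + 2) * (1 - x ^ 2) * R ^ 2 + D * R) :
    VV (AA z x ξ) (j + 1) ≤ R * VV (AA z x ξ) j := by
  have h := rec_real (ξ := ξ) hz hx0 hx1 hξ hS j h1 h2
  have hq := VV_quad (ξ := ξ) hz hx0 hx1 hξ j R
  have hV0 := VV_nonneg (A := AA z x ξ) j
  have hV1 := VV_nonneg (A := AA z x ξ) (j + 1)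
  have hδ : 0 ≤ 1 - x ^ 2 := by nlinarith
  set δ := 1 - x ^ 2 with hδd
  set V0 := VV (AA z x ξ) j
  set V1 := VV (AA z x ξ) (j + 1)
  set V2 := VV (AA z x ξ) (j + 2)
  have hj : (0:ℝ) ≤ (j:ℝ) + 2 := by positivity
  have hjδ : 0 ≤ ((j:ℝ) + 2) * δ := mul_nonneg hj hδ
  -- `(D + 2 (j+2) δ R) V1 ≤ (j + 1 + (j+2) δ R^2) V0`
  have h4 := mul_le_mul_of_nonneg_left (by linarith : 2 * R * V1 - R ^ 2 * V0 ≤ V2) hjδ
  have h5 : (D + 2 * ((j + 2) * δ) * R) * V1 ≤ (j + 1 + (j + 2) * δ * R ^ 2) * V0 := by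
    nlinarith
  have h6 : (j + 1 + (j + 2) * δ * R ^ 2) * V0 ≤ (R * (D + 2 * ((j + 2) * δ) * R)) * V0 := by
    refine mul_le_mul_of_nonneg_right ?_ hV0
    nlinarith
  have hRpos : 0 < R := by
    rcases hR.eq_or_lt with h7 | h7
    · rw [← h7] at h3
      have : (0:ℝ) ≤ (j:ℝ) := Nat.cast_nonneg j
      nlinarith
    · exact h7
  have hpos : 0 < D + 2 * ((j + 2) * δ) * R := by
    have h8 : 0 < R * (D + (j + 2) * δ * R) := by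
      have : (0:ℝ) ≤ (j:ℝ) := Nat.cast_nonneg j
      nlinarith
    have h9 : 0 < D + (j + 2) * δ * R := (mul_pos_iff_of_pos_left hRpos).1 h8
    have := mul_nonneg hjδ hR
    linarith
  have h10 : (D + 2 * ((j + 2) * δ) * R) * V1 ≤ (D + 2 * ((j + 2) * δ) * R) * (R * V0) := by
    calc _ ≤ _ := h5
      _ ≤ _ := h6
      _ = _ := by ring
  exact le_of_mul_le_mul_left h10 hpos

/-- The star from the moments, real form. `N = n + 1`, `m = (2x + S)/N`. -/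
theorem star_real (hz : ∀ i, ‖z i‖ ≤ 1) (hx0 : 0 ≤ x) (hx1 : x ≤ 1) (hξ : ‖ξ‖ < 1)
    (hS : ∑ i, z i = (S:ℂ)) {k : ℕ} {e : ℕ → ℝ} {M : ℝ} (hM : 0 ≤ M) {b : ℕ → ℝ} {E m : ℝ}
    (hm : (n + 1) * m = 2 * x + S)
    (hE : 2 * E ≤ (n + 1) * (1 - m ^ 2) - (1 + m ^ 2) / 2 - |2 * x + m|)
    (he : ∀ j, 1 ≤ j → j ≤ k → |e (k - j)| ≤ b j * M)
    (hb0 : ∀ j, 0 ≤ b j)
    (hmom : ∑ j ∈ Finset.range k, b (j + 1) * VV (AA z x ξ) (j + 1) ≤ E * VV (AA z x ξ) 1) :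
    |∑ j ∈ Finset.range k, e (k - (j + 1)) * (2 * (KK z x (j + 1) ξ).re)| ≤
      M * (2 * (KK z x 0 ξ).re - 1) := by
  refine star_of_moments hz (norm_real_le hx0 hx1) hξ hM (m := (m:ℂ)) (E := E) ?_ ?_ he hb0 hmom
  · rw [hS]
    exact_mod_cast hm
  · have e1 : ‖(m:ℂ)‖ ^ 2 = m ^ 2 := by rw [Complex.norm_real, Real.norm_eq_abs, sq_abs]
    have e2 : ‖2 * (x:ℂ) + (m:ℂ)‖ = |2 * x + m| := by
      rw [← Real.norm_eq_abs, ← Complex.norm_real]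
      push_cast
      rfl
    rw [e1, e2]
    exact hE

end

/-- A concave quadratic is at least its smaller end value. -/
theorem concave_quad {A B C q0 q1 q c : ℝ} (hA : 0 ≤ A) (h0 : c ≤ -A * q0 ^ 2 + B * q0 + C)
    (h1 : c ≤ -A * q1 ^ 2 + B * q1 + C) (hq0 : q0 ≤ q) (hq1 : q ≤ q1) :
    c ≤ -A * q ^ 2 + B * q + C := by
  rcases (hq0.trans hq1).eq_or_lt with h | h
  · have : q = q0 := le_antisymm (by linarith) hq0
    rw [this]; exact h0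
  · have e : (q1 - q0) * (-A * q ^ 2 + B * q + C - c) =
        (q1 - q) * (-A * q0 ^ 2 + B * q0 + C - c) + (q - q0) * (-A * q1 ^ 2 + B * q1 + C - c) +
        A * (q1 - q0) * ((q - q0) * (q1 - q)) := by ring
    have e1 : 0 ≤ (q1 - q0) * (-A * q ^ 2 + B * q + C - c) := by
      rw [e]
      have a1 := mul_nonneg (by linarith : 0 ≤ q1 - q) (by linarith : 0 ≤ -A * q0 ^ 2 + B * q0 + C - c)
      have a2 := mul_nonneg (by linarith : 0 ≤ q - q0) (by linarith : 0 ≤ -A * q1 ^ 2 + B * q1 + C - c)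
      have a3 := mul_nonneg (mul_nonneg hA (by linarith : 0 ≤ q1 - q0))
        (mul_nonneg (by linarith : 0 ≤ q - q0) (by linarith : 0 ≤ q1 - q))
      linarith
    have := nonneg_of_mul_nonneg_right e1 (by linarith : 0 < q1 - q0)
    linarith

/-- LOWER BOUND OF `E` by the two corners: `N = n + 1` nodes, `q = L_+ - 2x ≥ q0`,
`p = L_- + 2x ≥ p0`, `N ≥ 1/u0`. -/
theorem E_low {N S x m c u0 p0 q0 : ℝ} (hN : 0 < N) (hu : 1 ≤ u0 * N) (hm : N * m = 2 * x + S)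
    (hq : q0 ≤ N - S - 2 * x) (hp : p0 ≤ N + S + 2 * x) (hq0 : 2 ≤ q0) (hp0 : 2 ≤ p0)
    (h1 : c ≤ 2 * q0 - 2 - 2 * x - u0 * (q0 ^ 2 - 2 * q0) - u0 ^ 2 * q0 ^ 2 / 2)
    (h2 : c ≤ 2 * p0 - 2 * x - u0 * p0 ^ 2 - u0 ^ 2 * p0 ^ 2 / 2)
    (h3 : c ≤ 2 * q0 + 2 * x - u0 * q0 ^ 2 - u0 ^ 2 * q0 ^ 2 / 2)
    (h4 : c ≤ 2 * p0 - 2 + 2 * x - u0 * (p0 ^ 2 - 2 * p0) - u0 ^ 2 * p0 ^ 2 / 2) :
    c ≤ N * (1 - m ^ 2) - (1 + m ^ 2) / 2 - |2 * x + m| := by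
  obtain ⟨u, hu1⟩ : ∃ u : ℝ, u * N = 1 := ⟨N⁻¹, inv_mul_cancel₀ hN.ne'⟩
  have hupos : 0 < u := (mul_pos_iff_of_pos_right hN).1 (by rw [hu1]; norm_num)
  have huu : u ≤ u0 := by
    by_contra hcon
    push Not at hcon
    have := mul_lt_mul_of_pos_right hcon hN
    linarith
  set q := N - S - 2 * x with hqd
  have hmq : m = 1 - u * q := by
    have : u * (N * m) = u * (2 * x + S) := by rw [hm]
    rw [← mul_assoc, hu1, one_mul] at this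
    rw [this, hqd]
    linear_combination hu1
  set q1 := 2 * N - p0 with hq1d
  have hqq1 : q ≤ q1 := by rw [hqd, hq1d]; linarith
  have hu2 : u ^ 2 * N ^ 2 = 1 := by rw [← mul_pow, hu1, one_pow]
  have huu2 : u ^ 2 ≤ u0 ^ 2 := pow_le_pow_left₀ hupos.le huu 2
  have sq0 : 0 ≤ q0 ^ 2 - 2 * q0 := by nlinarith
  have sp0 : 0 ≤ p0 ^ 2 - 2 * p0 := by nlinarith
  have hNm : N * (1 - m ^ 2) = 2 * q - u * q ^ 2 := by
    rw [hmq]
    linear_combination (2 * q - u * q ^ 2) * hu1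
  have hA : 0 ≤ u + u ^ 2 / 2 := by positivity
  have ga : c ≤ -(u + u ^ 2 / 2) * q ^ 2 + (2 + 2 * u) * q + (-2 - 2 * x) := by
    refine concave_quad hA ?_ ?_ hq hqq1
    · have a1 := mul_le_mul_of_nonneg_right huu sq0
      have a2 := mul_le_mul_of_nonneg_right huu2 (sq_nonneg q0)
      linarith
    · have e : -(u + u ^ 2 / 2) * q1 ^ 2 + (2 + 2 * u) * q1 + (-2 - 2 * x) =
          2 * p0 - 2 * x - u * p0 ^ 2 - u ^ 2 * p0 ^ 2 / 2 := by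
        rw [hq1d]
        linear_combination (-4 * N + 4 * p0 + 4 + 2 * u * p0) * hu1 - 2 * hu2
      rw [e]
      have a1 := mul_le_mul_of_nonneg_right huu (sq_nonneg p0)
      have a2 := mul_le_mul_of_nonneg_right huu2 (sq_nonneg p0)
      linarith
  have gb : c ≤ -(u + u ^ 2 / 2) * q ^ 2 + 2 * q + 2 * x := by
    refine concave_quad hA ?_ ?_ hq hqq1
    · have a1 := mul_le_mul_of_nonneg_right huu (sq_nonneg q0)
      have a2 := mul_le_mul_of_nonneg_right huu2 (sq_nonneg q0)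
      linarith
    · have e : -(u + u ^ 2 / 2) * q1 ^ 2 + 2 * q1 + 2 * x =
          2 * p0 - 2 + 2 * x - u * (p0 ^ 2 - 2 * p0) - u ^ 2 * p0 ^ 2 / 2 := by
        rw [hq1d]
        linear_combination (-4 * N + 4 * p0 + 2 * u * p0) * hu1 - 2 * hu2
      rw [e]
      have a1 := mul_le_mul_of_nonneg_right huu sp0
      have a2 := mul_le_mul_of_nonneg_right huu2 (sq_nonneg p0)
      linarith
  rw [hNm]
  have hm2 : (1 + m ^ 2) / 2 = 1 - u * q + u ^ 2 * q ^ 2 / 2 := by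
    rw [hmq]; ring
  rw [hm2]
  rcases abs_cases (2 * x + m) with ⟨h, _⟩ | ⟨h, _⟩
  · rw [h, hmq]
    linarith
  · rw [h, hmq]
    linarith

end Pool.Agent.HFin
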