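import Pool.Agent.HFin.Mirror
import Pool.Agent.HFin.Ends
import Pool.Agent.HFin.Mom

/-!
# The middle region for `k = 2`, `n ≥ 8`
-/

set_option autoImplicit false

namespace Pool.Agent.HFin

open Complex Set ComplexConjugate Polynomial Pool.Agent.HHalf Pool.Agent.HStar

/-- `ω ≥ 0` on the real line. -/
theorem hv_zero_nonneg {N : ℕ} (L : Fin N → ℂ) (t : ℝ) : 0 ≤ hv L 0 t := by
  unfold hv
  rw [hasseDeriv_zero']
  unfold omR
  rw [eval_prod]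
  refine Finset.prod_nonneg fun a _ => ?_
  simp only [eval_add, eval_pow, eval_sub, eval_X, eval_C]
  positivity

/-- The sum of the nodes. -/
theorem sum_zL {N m : ℕ} (L : Fin N → ℂ) (e : Fin m ≃ Fin N × Bool) :
    ∑ i, (zL L ∘ e) i = ((2 * ∑ a, (L a).re : ℝ) : ℂ) := by
  have h1 : ∑ i, (zL L ∘ e) i = ∑ p, zL L p := Equiv.sum_comp e (zL L)
  rw [h1, Fintype.sum_prod_type]
  have h2 : ∀ a : Fin N, ∑ b : Bool, zL L (a, b) = ((2 * (L a).re : ℝ) : ℂ) := by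
    intro a
    rw [Fintype.sum_bool]
    unfold zL
    simp only [if_true, Bool.false_eq_true, if_false]
    rw [add_comm, Complex.add_conj]
  rw [Finset.sum_congr rfl fun a _ => h2 a, ← Complex.ofReal_sum, ← Finset.mul_sum]

theorem one_mem : (1:ℝ) ∈ Icc (-1:ℝ) 1 := ⟨by norm_num, le_rfl⟩
theorem neg_one_mem : (-1:ℝ) ∈ Icc (-1:ℝ) 1 := ⟨le_rfl, by norm_num⟩

section bounds

variable {N : ℕ} {L : Fin N → ℂ} {x M : ℝ}

theorem k2_end0 (hL : ∀ a, ‖L a‖ ≤ 1) (hN : 4 ≤ N) (hM : IsM L 2 M) {t : ℝ} (ht : |t| = 1) :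
    |hv L 0 t| ≤ M / 7 := by
  have h := hv_end hL (i := 0) (k := 2) (by norm_num) (by omega) ht
  have h2 : |hv L 2 t| ≤ M := hM t (abs_le.1 ht.le)
  have e : ((2 * N).choose 2 : ℝ) = N * (2 * N - 1) := by
    rw [Nat.cast_choose_two]; push_cast; ring
  have hNr : (4:ℝ) ≤ N := by exact_mod_cast hN
  rw [e] at h
  simp only [Nat.choose_zero_right, Nat.cast_one, mul_one] at h
  norm_num at h
  have h3 : (28:ℝ) ≤ N * (2 * N - 1) := by nlinarith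
  have h4 := mul_le_mul_of_nonneg_right h3 (abs_nonneg (hv L 0 t))
  linarith

theorem k2_end1 (hL : ∀ a, ‖L a‖ ≤ 1) (hN : 4 ≤ N) (hM : IsM L 2 M) {t : ℝ} (ht : |t| = 1) :
    |hv L 1 t| ≤ 4 / 7 * M := by
  have h := hv_end hL (i := 1) (k := 2) (by norm_num) (by omega) ht
  have h2 : |hv L 2 t| ≤ M := hM t (abs_le.1 ht.le)
  have e : ((2 * N).choose 2 : ℝ) = N * (2 * N - 1) := by
    rw [Nat.cast_choose_two]; push_cast; ring
  have hNr : (4:ℝ) ≤ N := by exact_mod_cast hN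
  rw [e, Nat.choose_one_right] at h
  norm_num at h
  push_cast at h
  have h5 : (2 * (N:ℝ) - 1) * |hv L 1 t| ≤ 4 * |hv L 2 t| := by
    have h6 : (N:ℝ) * ((2 * N - 1) * |hv L 1 t|) ≤ N * (4 * |hv L 2 t|) := by linarith
    exact le_of_mul_le_mul_left h6 (by linarith)
  have h7 := mul_le_mul_of_nonneg_right (by linarith : (7:ℝ) ≤ 2 * N - 1) (abs_nonneg (hv L 1 t))
  linarith

theorem k2_taylor (hM : IsM L 2 M) {y t : ℝ} (hy : y ∈ Icc (-1:ℝ) 1) (ht : t ∈ Icc (-1:ℝ) 1) :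
    |hv L 0 t - (hv L 0 y + (t - y) * hv L 1 y)| ≤ (t - y) ^ 2 * M := by
  have h := taylor_abs (hseq_hv L) (M := M) 2 0 hy ht (fun s hs => hM s hs)
  simp only [tay, Finset.sum_range_succ, Finset.sum_range_zero, zero_add] at h
  norm_num at h
  exact h

theorem k2_taylor1 (hM : IsM L 2 M) {y t : ℝ} (hy : y ∈ Icc (-1:ℝ) 1) (ht : t ∈ Icc (-1:ℝ) 1) :
    |hv L 1 t - hv L 1 y| ≤ 2 * |t - y| * M := by
  have h := taylor_abs (hseq_hv L) (M := M) 1 1 hy ht (fun s hs => hM s hs)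
  simp only [tay, Finset.sum_range_succ, Finset.sum_range_zero, zero_add] at h
  norm_num at h
  exact h

theorem k2_b1a (hL : ∀ a, ‖L a‖ ≤ 1) (hN : 4 ≤ N) (hM : IsM L 2 M) (hx : x ∈ Icc (-1:ℝ) 1) :
    |hv L 1 x| ≤ (1 + x ^ 2 + 1 / 14) * M := by
  have h1 := abs_le.1 (k2_taylor hM hx one_mem)
  have h2 := abs_le.1 (k2_taylor hM hx neg_one_mem)
  have e1 := abs_le.1 (k2_end0 hL hN hM (t := 1) (by norm_num))
  have e2 := abs_le.1 (k2_end0 hL hN hM (t := -1) (by norm_num))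
  have p1 := hv_zero_nonneg L 1
  have p2 := hv_zero_nonneg L (-1)
  refine abs_le.2 ⟨?_, ?_⟩
  · nlinarith [h1.1, h1.2, h2.1, h2.2, e1.1, e1.2, e2.1, e2.2]
  · nlinarith [h1.1, h1.2, h2.1, h2.2, e1.1, e1.2, e2.1, e2.2]

theorem k2_b1b (hL : ∀ a, ‖L a‖ ≤ 1) (hN : 4 ≤ N) (hM : IsM L 2 M) (hx : x ∈ Icc (-1:ℝ) 1) :
    |hv L 1 x| ≤ (2 * (1 - x) + 4 / 7) * M := by
  have h1 := k2_taylor1 hM one_mem hx
  have e1 := k2_end1 hL hN hM (t := 1) (by norm_num)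
  have h2 : |x - 1| = 1 - x := by rw [abs_of_nonpos (by linarith [hx.2])]; ring
  rw [h2] at h1
  have h3 := abs_sub_abs_le_abs_sub (hv L 1 x) (hv L 1 1)
  linarith

theorem k2_b2a (hL : ∀ a, ‖L a‖ ≤ 1) (hN : 4 ≤ N) (hM : IsM L 2 M) (hx : x ∈ Icc (-1:ℝ) 1) :
    |hv L 0 x| ≤ ((1 - x) ^ 2 + 1 / 7) * M := by
  have h1 := (abs_le.1 (k2_taylor hM one_mem hx)).2
  have e1 := (abs_le.1 (k2_end0 hL hN hM (t := 1) (by norm_num))).2
  have p1 := mul_nonneg (by linarith [hx.2] : 0 ≤ 1 - x) (hv_one_nonneg hL 1)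
  rw [abs_of_nonneg (hv_zero_nonneg L x)]
  nlinarith

theorem k2_b2b (hL : ∀ a, ‖L a‖ ≤ 1) (hM : IsM L 2 M) (hx : x ∈ Icc (-1:ℝ) 1)
    {R : Fin N} (hR : (1 + x) / 2 ≤ (L R).re) :
    |hv L 0 x| ≤ ((1 - x) ^ 2 + (1 - x)) * M := by
  have h1 := (abs_le.1 (k2_taylor hM one_mem hx)).2
  have e1 := hv_corner0 hL hR
  have hx1 : 0 ≤ 1 - x := by linarith [hx.2]
  have e2 := mul_le_mul_of_nonneg_left (abs_le.1 (hM 1 one_mem)).2 hx1
  have p1 := mul_nonneg hx1 (hv_one_nonneg hL 1)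
  rw [abs_of_nonneg (hv_zero_nonneg L x)]
  change (1 - x) * hv L 2 1 ≤ (1 - x) * M at e2
  nlinarith

/-- STAR from the numbers. -/
theorem k2_star (hL : ∀ a, ‖L a‖ ≤ 1) (hN : 4 ≤ N) (hx0 : 0 ≤ x) (hx1 : x < 1)
    (hp : 14 / 5 < ∑ a, (1 - (L a).re)) (hm : 2 < ∑ a, (1 + (L a).re)) (hM : IsM L 2 M)
    {b1 b2 R D : ℝ} (h1 : |hv L 1 x| ≤ b1 * M) (h2 : |hv L 0 x| ≤ b2 * M) (hb1 : 0 ≤ b1)
    (hb2 : 0 ≤ b2) (hR : 0 ≤ R) (hD1 : D ≤ 23 / 5 - 5 * x) (hD2 : D ≤ 3 + x)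
    (hDR : 2 ≤ 3 * (1 - x ^ 2) * R ^ 2 + D * R) {c : ℝ} (hc : 2 * (b1 + b2 * R) ≤ c)
    (c1 : c ≤ 2 * (28 / 5 - 2 * x) - 2 - 2 * x - 1 / 8 * ((28 / 5 - 2 * x) ^ 2 -
      2 * (28 / 5 - 2 * x)) - (1 / 8) ^ 2 * (28 / 5 - 2 * x) ^ 2 / 2)
    (c2 : c ≤ 2 * (4 + 2 * x) - 2 * x - 1 / 8 * (4 + 2 * x) ^ 2 - (1 / 8) ^ 2 * (4 + 2 * x) ^ 2 / 2)
    (c3 : c ≤ 2 * (28 / 5 - 2 * x) + 2 * x - 1 / 8 * (28 / 5 - 2 * x) ^ 2 -
      (1 / 8) ^ 2 * (28 / 5 - 2 * x) ^ 2 / 2)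
    (c4 : c ≤ 2 * (4 + 2 * x) - 2 + 2 * x - 1 / 8 * ((4 + 2 * x) ^ 2 - 2 * (4 + 2 * x)) -
      (1 / 8) ^ 2 * (4 + 2 * x) ^ 2 / 2)
    {m : ℕ} (e : Fin m ≃ Fin N × Bool) {ξ : ℂ} (hξ : ‖ξ‖ < 1) :
    STAR L (zL L ∘ e) 2 x M ξ := by
  have hcard : m = 2 * N := by
    have := Fintype.card_congr e
    simp only [Fintype.card_fin, Fintype.card_prod, Fintype.card_bool] at this
    omega
  obtain ⟨n, rfl⟩ : ∃ n, m = n + 1 := ⟨m - 1, by omega⟩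
  have hz : ∀ i, ‖(zL L ∘ e) i‖ ≤ 1 := fun i => norm_zL hL _
  have hnr : (n:ℝ) + 1 = 2 * N := by exact_mod_cast hcard
  have hNr : (4:ℝ) ≤ N := by exact_mod_cast hN
  have hM0 : 0 ≤ M := (abs_nonneg _).trans (hM 1 one_mem)
  set S : ℝ := 2 * ∑ a, (L a).re with hSd
  have hS : ∑ i, (zL L ∘ e) i = (S:ℂ) := sum_zL L e
  have sp : ∑ a, (1 - (L a).re) = N - S / 2 := by
    rw [Finset.sum_sub_distrib, hSd]; simp
  have sm : ∑ a, (1 + (L a).re) = N + S / 2 := by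
    rw [Finset.sum_add_distrib, hSd]; simp
  rw [sp] at hp
  rw [sm] at hm
  have hV := VV_step (ξ := ξ) (z := zL L ∘ e) (n := n) hz hx0 hx1.le hξ hS 1 (D := D) (R := R)
    (by push_cast; rw [hnr]; linarith) (by rw [hnr]; linarith) hR (by push_cast; linarith)
  have hV1 := VV_nonneg (A := AA (zL L ∘ e) (x:ℂ) ξ) 1
  have hN2 : (0:ℝ) < 2 * N := by linarith
  have hE := E_low (N := 2 * N) (S := S) (x := x) (m := (2 * x + S) / (2 * N)) (c := c)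
    (u0 := 1 / 8) (p0 := 4 + 2 * x) (q0 := 28 / 5 - 2 * x) hN2 (by linarith)
    (by field_simp) (by linarith) (by linarith) (by linarith) (by linarith) c1 c2 c3 c4
  refine star_real (n := n) (z := zL L ∘ e) hz hx0 hx1.le hξ hS (k := 2)
    (e := fun i => (hasseDeriv i (omR L)).eval x) hM0 (b := fun j => if j = 1 then b1 else b2)
    (E := b1 + b2 * R) (m := (2 * x + S) / (2 * N)) (by rw [hnr]; field_simp) ?_ ?_ ?_ ?_
  · rw [hnr]; linarith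
  · intro j hj1 hj2
    obtain rfl | rfl : j = 1 ∨ j = 2 := by omega
    · rw [if_pos rfl]
      exact h1
    · rw [if_neg (by norm_num)]
      exact h2
  · intro j
    split_ifs <;> assumption
  · rw [Finset.sum_range_succ, Finset.sum_range_one]
    norm_num
    have := mul_le_mul_of_nonneg_left hV hb2
    norm_num at this
    linarith

end bounds

/-- `k = 2`, `n ≥ 8`, `x ∈ [0, 1)`: the middle region. -/
theorem mid2_pos {N : ℕ} {L : Fin N → ℂ} (hL : ∀ a, ‖L a‖ ≤ 1) (hN : 4 ≤ N) {x : ℝ} (hx0 : 0 ≤ x)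
    (hx1 : x < 1) (hp : 14 / 5 < ∑ a, (1 - (L a).re)) (hm : 2 < ∑ a, (1 + (L a).re))
    {a : Fin N} (hR : (1 + x) / 2 ≤ (L a).re) : PW L 2 x := by
  have hx : x ∈ Icc (-1:ℝ) 1 := ⟨by linarith, hx1.le⟩
  have hcard : Fintype.card (Fin (2 * N)) = Fintype.card (Fin N × Bool) := by
    simp only [Fintype.card_fin, Fintype.card_prod, Fintype.card_bool]
    omega
  refine pw_of_star hL hx (Fintype.equivOfCardEq hcard) (ρ0 := 0) zero_lt_one ?_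
  intro M hM ξ _ hξ
  have b1a := k2_b1a hL hN hM hx
  have b1b := k2_b1b hL hN hM hx
  have b2a := k2_b2a hL hN hM hx
  have b2b := k2_b2b hL hM hx hR
  have hs : 0 < 1 - x := by linarith
  rcases le_or_gt x (3 / 10) with i1 | i1
  · refine k2_star hL hN hx0 hx1 hp hm hM b1a b2a (by positivity) (by positivity) (R := 1 / 2)
      (D := 3) (by norm_num) (by linarith) (by linarith) (by nlinarith)
      (c := 2 * ((1 + x ^ 2 + 1 / 14) + ((1 - x) ^ 2 + 1 / 7) * (1 / 2))) le_rfl ?_ ?_ ?_ ?_ _ hξ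
    all_goals nlinarith
  rcases le_or_gt x (11 / 20) with i2 | i2
  · refine k2_star hL hN hx0 hx1 hp hm hM b1a b2a (by positivity) (by positivity) (R := 13 / 20)
      (D := 23 / 5 - 5 * x) (by norm_num) le_rfl (by linarith) (by nlinarith)
      (c := 2 * ((1 + x ^ 2 + 1 / 14) + ((1 - x) ^ 2 + 1 / 7) * (13 / 20))) le_rfl ?_ ?_ ?_ ?_ _ hξ
    all_goals nlinarith
  rcases le_or_gt x (3 / 4) with i3 | i3
  · refine k2_star hL hN hx0 hx1 hp hm hM b1b b2a (by positivity) (by positivity) (R := 24 / 25)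
      (D := 23 / 5 - 5 * x) (by norm_num) le_rfl (by linarith) (by nlinarith)
      (c := 2 * ((2 * (1 - x) + 4 / 7) + ((1 - x) ^ 2 + 1 / 7) * (24 / 25))) le_rfl ?_ ?_ ?_ ?_ _ hξ
    all_goals nlinarith
  rcases le_or_gt x (9 / 10) with i4 | i4
  · refine k2_star hL hN hx0 hx1 hp hm hM b1b b2b (by positivity) (by positivity) (R := 9 / 5)
      (D := 23 / 5 - 5 * x) (by norm_num) le_rfl (by linarith) (by nlinarith)
      (c := 2 * ((2 * (1 - x) + 4 / 7) + ((1 - x) ^ 2 + (1 - x)) * (9 / 5))) le_rfl ?_ ?_ ?_ ?_ _ hξ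
    all_goals nlinarith
  · have e : (1 - x) * (23 / 100 / (1 - x)) = 23 / 100 := by field_simp
    refine k2_star hL hN hx0 hx1 hp hm hM b1b b2b (by positivity) (by positivity)
      (R := 23 / 100 / (1 - x)) (D := 23 / 5 - 5 * x) (by positivity) le_rfl (by linarith) ?_
      (c := 2 * ((2 * (1 - x) + 4 / 7) + (1 + (1 - x)) * (23 / 100))) ?_ ?_ ?_ ?_ ?_ _ hξ
    · have e2 : 3 * (1 - x ^ 2) * (23 / 100 / (1 - x)) ^ 2 + (23 / 5 - 5 * x) *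
          (23 / 100 / (1 - x)) =
          (3 * (1 + x) * (23 / 100) ^ 2 + (23 / 5 - 5 * x) * (23 / 100)) / (1 - x) := by
        field_simp
        ring
      rw [e2, le_div_iff₀ hs]
      nlinarith
    · have e3 : ((1 - x) ^ 2 + (1 - x)) * (23 / 100 / (1 - x)) =
          (1 + (1 - x)) * ((1 - x) * (23 / 100 / (1 - x))) := by ring
      rw [e3, e]
    all_goals nlinarith

/-- `k = 2`, `n ≥ 8`: the middle region (both signs of `x`). -/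
theorem mid2 {N : ℕ} {L : Fin N → ℂ} (hL : ∀ a, ‖L a‖ ≤ 1) (hN : 4 ≤ N) {x : ℝ}
    (hx : x ∈ Ioo (-1:ℝ) 1) (hp : 2 < ∑ a, (1 - (L a).re)) (hm : 2 < ∑ a, (1 + (L a).re))
    (hp' : 0 ≤ x → 14 / 5 < ∑ a, (1 - (L a).re)) (hm' : x ≤ 0 → 14 / 5 < ∑ a, (1 + (L a).re))
    (hR : ∃ a, (1 + x) / 2 ≤ (L a).re) (hLn : ∃ a, (L a).re ≤ (x - 1) / 2) : PW L 2 x := by
  rcases le_total 0 x with h | h
  · obtain ⟨a, ha⟩ := hR
    exact mid2_pos hL hN h hx.2 (hp' h) hm ha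
  · obtain ⟨a, ha⟩ := hLn
    refine PW_mirror (mid2_pos (L := fun a => - L a) (fun a => by rw [norm_neg]; exact hL a) hN
      (by linarith) (by linarith [hx.1]) ?_ ?_ (a := a) ?_)
    · simpa using hm' h
    · simpa [← sub_eq_add_neg] using hp
    · simp only [neg_re]
      linarith

end Pool.Agent.HFin
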