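import Pool.Agent.HFin.K2
import Pool.Agent.HStar.Asm2

/-!
# `k = 2`: the middle region in the form of the final assembly
-/

set_option autoImplicit false

namespace Pool.Agent.HFin

open Pool.Agent.HStar

/-- The statement of order `2` in the middle region for `N ≥ 4` pairs. -/
theorem midH_two {N : ℕ} (hN : 4 ≤ N) : MidH N 2 := by
  intro L x hL hx0 hx1 hp hm _ hR
  obtain ⟨a, ha⟩ := hR
  have h1 : thr N 2 = 14 / 5 := by
    unfold thr Pool.Agent.HHalfC.cth
    rw [if_neg (by norm_num), if_pos rfl, if_neg (by omega)]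
  have h2 : Pool.Agent.HHalfB.bal 2 = 2 := by
    unfold Pool.Agent.HHalfB.bal
    norm_num
  rw [h1] at hp
  rw [h2] at hm
  exact mid2_pos hL hN hx0 hx1 hp hm ha.le

end Pool.Agent.HFin
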