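import Pool.Agent.HFin.K2
import Pool.Agent.HStar.Asm2

/-!
# The middle region for `k = 3`, `n ≥ 10`
-/

set_option autoImplicit false

namespace Pool.Agent.HFin

open Complex Set ComplexConjugate Polynomial Pool.Agent.HHalf Pool.Agent.HStar

section bounds

variable {N : ℕ} {L : Fin N → ℂ} {x M : ℝ}

theorem choose3 (N : ℕ) (hN : 2 ≤ N) :
    ((2 * N).choose 3 : ℝ) = 2 * N * (2 * N - 1) * (2 * N - 2) / 6 := by
  obtain ⟨q, rfl⟩ : ∃ q, N = q + 2 := ⟨N - 2, by omega⟩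
  have h1 := Nat.add_one_mul_choose_eq (2 * q + 3) 2
  have h2 : (((2 * q + 3 + 1) * (2 * q + 3).choose 2 : ℕ) : ℝ) =
      (((2 * q + 3 + 1).choose (2 + 1) * (2 + 1) : ℕ) : ℝ) := by exact_mod_cast h1
  have e2 : 2 * (q + 2) = 2 * q + 3 + 1 := by ring
  rw [e2]
  push_cast at h2
  rw [Nat.cast_choose_two] at h2
  push_cast at h2 ⊢
  norm_num at h2 ⊢
  linarith

theorem k3_end0 (hL : ∀ a, ‖L a‖ ≤ 1) (hN : 5 ≤ N) (hM : IsM L 3 M) {t : ℝ} (ht : |t| = 1) :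
    |hv L 0 t| ≤ M / 15 := by
  have h := hv_end hL (i := 0) (k := 3) (by norm_num) (by omega) ht
  have h2 : |hv L 3 t| ≤ M := hM t (abs_le.1 ht.le)
  have hNr : (5:ℝ) ≤ N := by exact_mod_cast hN
  rw [choose3 N (by omega)] at h
  simp only [Nat.choose_zero_right, Nat.cast_one, mul_one] at h
  norm_num at h
  have h3 : (120:ℝ) ≤ 2 * N * (2 * N - 1) * (2 * N - 2) / 6 := by
    have a1 : (90:ℝ) ≤ 2 * N * (2 * N - 1) := by nlinarith
    have a2 : (8:ℝ) ≤ 2 * N - 2 := by linarith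
    have := mul_le_mul a1 a2 (by norm_num) (by linarith)
    linarith
  have h4 := mul_le_mul_of_nonneg_right h3 (abs_nonneg (hv L 0 t))
  linarith

theorem k3_end1 (hL : ∀ a, ‖L a‖ ≤ 1) (hN : 5 ≤ N) (hM : IsM L 3 M) {t : ℝ} (ht : |t| = 1) :
    |hv L 1 t| ≤ M / 3 := by
  have h := hv_end hL (i := 1) (k := 3) (by norm_num) (by omega) ht
  have h2 : |hv L 3 t| ≤ M := hM t (abs_le.1 ht.le)
  have hNr : (5:ℝ) ≤ N := by exact_mod_cast hN
  rw [choose3 N (by omega), Nat.choose_one_right] at h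
  norm_num at h
  push_cast at h
  have h3 : (24:ℝ) ≤ (2 * N - 1) * (2 * N - 2) / 3 := by nlinarith
  have h5 : (N:ℝ) * (((2 * N - 1) * (2 * N - 2) / 3) * |hv L 1 t|) ≤ N * (8 * |hv L 3 t|) := by
    linarith
  have h6 := le_of_mul_le_mul_left h5 (by linarith)
  have h4 := mul_le_mul_of_nonneg_right h3 (abs_nonneg (hv L 1 t))
  linarith

theorem k3_end2 (hL : ∀ a, ‖L a‖ ≤ 1) (hN : 5 ≤ N) (hM : IsM L 3 M) {t : ℝ} (ht : |t| = 1) :
    |hv L 2 t| ≤ 3 / 4 * M := by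
  have h := hv_end hL (i := 2) (k := 3) (by norm_num) (by omega) ht
  have h2 : |hv L 3 t| ≤ M := hM t (abs_le.1 ht.le)
  have hNr : (5:ℝ) ≤ N := by exact_mod_cast hN
  rw [choose3 N (by omega), Nat.cast_choose_two] at h
  norm_num at h
  push_cast at h
  have hp : 0 < 2 * (N:ℝ) * (2 * N - 1) := by nlinarith
  have h5 : (2 * (N:ℝ) * (2 * N - 1)) * ((2 * N - 2) / 6 * |hv L 2 t|) ≤
      (2 * (N:ℝ) * (2 * N - 1)) * |hv L 3 t| := by
    linarith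
  have h6 := le_of_mul_le_mul_left h5 hp
  have h4 := mul_le_mul_of_nonneg_right (by linarith : (4:ℝ) / 3 ≤ (2 * N - 2) / 6)
    (abs_nonneg (hv L 2 t))
  linarith

theorem k3_taylor0 (hM : IsM L 3 M) {y t : ℝ} (hy : y ∈ Icc (-1:ℝ) 1) (ht : t ∈ Icc (-1:ℝ) 1) :
    |hv L 0 t - (hv L 0 y + (t - y) * hv L 1 y + (t - y) ^ 2 * hv L 2 y)| ≤ |t - y| ^ 3 * M := by
  have h := taylor_abs (hseq_hv L) (M := M) 3 0 hy ht (fun s hs => hM s hs)
  simp only [tay, Finset.sum_range_succ, Finset.sum_range_zero, zero_add] at h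
  norm_num at h
  exact h

theorem k3_taylor1 (hM : IsM L 3 M) {y t : ℝ} (hy : y ∈ Icc (-1:ℝ) 1) (ht : t ∈ Icc (-1:ℝ) 1) :
    |hv L 1 t - (hv L 1 y + 2 * (t - y) * hv L 2 y)| ≤ 3 * (t - y) ^ 2 * M := by
  have h := taylor_abs (hseq_hv L) (M := M) 2 1 hy ht (fun s hs => hM s hs)
  have e : Nat.choose 3 2 = 3 := by decide
  simp only [tay, Finset.sum_range_succ, Finset.sum_range_zero, zero_add] at h
  norm_num [e] at h
  exact h

theorem k3_taylor2 (hM : IsM L 3 M) {y t : ℝ} (hy : y ∈ Icc (-1:ℝ) 1) (ht : t ∈ Icc (-1:ℝ) 1) :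
    |hv L 2 t - hv L 2 y| ≤ 3 * |t - y| * M := by
  have h := taylor_abs (hseq_hv L) (M := M) 1 2 hy ht (fun s hs => hM s hs)
  simp only [tay, Finset.sum_range_succ, Finset.sum_range_zero, zero_add] at h
  norm_num at h
  exact h

theorem k3_b1a (hL : ∀ a, ‖L a‖ ≤ 1) (hN : 5 ≤ N) (hM : IsM L 3 M) (hx : x ∈ Icc (-1:ℝ) 1) :
    |hv L 2 x| ≤ (3 / 2 * (1 + x ^ 2) + 1 / 6) * M := by
  have h1 := abs_le.1 (k3_taylor1 hM hx one_mem)
  have h2 := abs_le.1 (k3_taylor1 hM hx neg_one_mem)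
  have e1 := abs_le.1 (k3_end1 hL hN hM (t := 1) (by norm_num))
  have e2 := abs_le.1 (k3_end1 hL hN hM (t := -1) (by norm_num))
  have p1 := hv_one_nonneg hL 1
  have p2 := hv_neg_one_nonneg hL 1
  norm_num at p2
  refine abs_le.2 ⟨?_, ?_⟩
  · nlinarith [h1.1, h1.2, h2.1, h2.2, e1.1, e1.2, e2.1, e2.2]
  · nlinarith [h1.1, h1.2, h2.1, h2.2, e1.1, e1.2, e2.1, e2.2]

theorem k3_b1b (hL : ∀ a, ‖L a‖ ≤ 1) (hN : 5 ≤ N) (hM : IsM L 3 M) (hx : x ∈ Icc (-1:ℝ) 1) :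
    |hv L 2 x| ≤ (3 * (1 - x) + 3 / 4) * M := by
  have h1 := k3_taylor2 hM one_mem hx
  have e1 := k3_end2 hL hN hM (t := 1) (by norm_num)
  have h2 : |x - 1| = 1 - x := by rw [abs_of_nonpos (by linarith [hx.2])]; ring
  rw [h2] at h1
  have h3 := abs_sub_abs_le_abs_sub (hv L 2 x) (hv L 2 1)
  linarith

theorem k3_b2a (hL : ∀ a, ‖L a‖ ≤ 1) (hN : 5 ≤ N) (hM : IsM L 3 M) (hx : x ∈ Icc (-1:ℝ) 1)
    {g : ℝ} (hg1 : 1 / 3 ≤ g) (hg2 : 3 / 2 * (1 - x) ≤ g) :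
    |hv L 1 x| ≤ (3 * (1 - x) ^ 2 + g) * M := by
  have hM0 : 0 ≤ M := (abs_nonneg _).trans (hM 1 one_mem)
  have h1 := abs_le.1 (k3_taylor1 hM one_mem hx)
  have e1 := abs_le.1 (k3_end1 hL hN hM (t := 1) (by norm_num))
  have e2 := abs_le.1 (k3_end2 hL hN hM (t := 1) (by norm_num))
  have p1 := hv_one_nonneg hL 1
  have p2 := hv_one_nonneg hL 2
  have hs : 0 ≤ 1 - x := by linarith [hx.2]
  have q1 := mul_nonneg hs p2
  have q2 := mul_le_mul_of_nonneg_left e2.2 hs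
  have q3 := mul_le_mul_of_nonneg_right hg1 hM0
  have q4 := mul_le_mul_of_nonneg_right hg2 hM0
  refine abs_le.2 ⟨?_, ?_⟩
  · linarith [h1.1]
  · linarith [h1.2, e1.2]

theorem k3_b2b (hL : ∀ a, ‖L a‖ ≤ 1) (hN : 5 ≤ N) (hM : IsM L 3 M) (hx0 : 0 ≤ x) (hx1 : x ≤ 1)
    {b1 : ℝ} (hb : |hv L 2 x| ≤ b1 * M) :
    |hv L 1 x| ≤ (2 * x * b1 + 1 + 3 * x ^ 2 + 1 / 30) * M := by
  have hx : x ∈ Icc (-1:ℝ) 1 := ⟨by linarith, hx1⟩
  have h1 := abs_le.1 (k3_taylor0 hM hx one_mem)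
  have h2 := abs_le.1 (k3_taylor0 hM hx neg_one_mem)
  have e1 := abs_le.1 (k3_end0 hL hN hM (t := 1) (by norm_num))
  have e2 := abs_le.1 (k3_end0 hL hN hM (t := -1) (by norm_num))
  have p1 := hv_zero_nonneg L 1
  have p2 := hv_zero_nonneg L (-1)
  have a1 : |1 - x| = 1 - x := abs_of_nonneg (by linarith)
  have a2 : |-1 - x| = 1 + x := by rw [abs_of_nonpos (by linarith)]; ring
  rw [a1] at h1
  rw [a2] at h2
  have hb' := abs_le.1 hb
  have q1 := mul_le_mul_of_nonneg_left hb'.1 hx0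
  have q2 := mul_le_mul_of_nonneg_left hb'.2 hx0
  have r1 : (1 - x) ^ 3 * M + (1 + x) ^ 3 * M = (2 + 6 * x ^ 2) * M := by ring
  have r2 : (1 - x) ^ 2 * hv L 2 x - (-1 - x) ^ 2 * hv L 2 x = -4 * (x * hv L 2 x) := by ring
  refine abs_le.2 ⟨?_, ?_⟩
  · linarith [h1.1, h1.2, h2.1, h2.2]
  · linarith [h1.1, h1.2, h2.1, h2.2]

theorem k3_b3a (hL : ∀ a, ‖L a‖ ≤ 1) (hN : 5 ≤ N) (hM : IsM L 3 M) (hx : x ∈ Icc (-1:ℝ) 1) :
    |hv L 0 x| ≤ (1 / 15 + 3 / 4 * (1 - x) ^ 2 + (1 - x) ^ 3) * M := by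
  have h1 := (abs_le.1 (k3_taylor0 hM one_mem hx)).2
  have e1 := (abs_le.1 (k3_end0 hL hN hM (t := 1) (by norm_num))).2
  have e2 := (abs_le.1 (k3_end2 hL hN hM (t := 1) (by norm_num))).2
  have h2 : |x - 1| = 1 - x := by rw [abs_of_nonpos (by linarith [hx.2])]; ring
  rw [h2] at h1
  have p1 := mul_nonneg (by linarith [hx.2] : 0 ≤ 1 - x) (hv_one_nonneg hL 1)
  have p2 := mul_le_mul_of_nonneg_left e2 (sq_nonneg (1 - x))
  rw [abs_of_nonneg (hv_zero_nonneg L x)]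
  have e : (x - 1) ^ 2 * hv L 2 1 = (1 - x) ^ 2 * hv L 2 1 := by ring
  linarith

theorem k3_b3b (hL : ∀ a, ‖L a‖ ≤ 1) (hN : 5 ≤ N) (hM : IsM L 3 M) (hx : x ∈ Icc (-1:ℝ) 1)
    {R : Fin N} (hR : (1 + x) / 2 ≤ (L R).re) :
    |hv L 0 x| ≤ (3 / 4 * (1 - x) + 3 / 4 * (1 - x) ^ 2 + (1 - x) ^ 3) * M := by
  have h1 := (abs_le.1 (k3_taylor0 hM one_mem hx)).2
  have e1 := hv_corner0 hL hR
  have e2 := (abs_le.1 (k3_end2 hL hN hM (t := 1) (by norm_num))).2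
  have h2 : |x - 1| = 1 - x := by rw [abs_of_nonpos (by linarith [hx.2])]; ring
  rw [h2] at h1
  have hs : 0 ≤ 1 - x := by linarith [hx.2]
  have p1 := mul_nonneg hs (hv_one_nonneg hL 1)
  have p2 := mul_le_mul_of_nonneg_left e2 (sq_nonneg (1 - x))
  have p3 := mul_le_mul_of_nonneg_left e2 hs
  rw [abs_of_nonneg (hv_zero_nonneg L x)]
  have e : (x - 1) ^ 2 * hv L 2 1 = (1 - x) ^ 2 * hv L 2 1 := by ring
  linarith

/-- STAR from the numbers, `k = 3`. -/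
theorem k3_star (hL : ∀ a, ‖L a‖ ≤ 1) (hN : 5 ≤ N) (hx0 : 0 ≤ x) (hx1 : x < 1)
    (hp : 15 / 4 < ∑ a, (1 - (L a).re)) (hm : 3 < ∑ a, (1 + (L a).re)) (hM : IsM L 3 M)
    {b1 b2 b3 R2 R3 D2 D3 : ℝ} (h1 : |hv L 2 x| ≤ b1 * M) (h2 : |hv L 1 x| ≤ b2 * M)
    (h3 : |hv L 0 x| ≤ b3 * M) (hb1 : 0 ≤ b1)
    (hb2 : 0 ≤ b2) (hb3 : 0 ≤ b3) (hR2 : 0 ≤ R2) (hR3 : 0 ≤ R3) (hD21 : D2 ≤ 13 / 2 - 5 * x)
    (hD22 : D2 ≤ 5 + x) (hD31 : D3 ≤ 13 / 2 - 7 * x) (hD32 : D3 ≤ 5 + x)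
    (hDR2 : 2 ≤ 3 * (1 - x ^ 2) * R2 ^ 2 + D2 * R2) (hDR3 : 3 ≤ 4 * (1 - x ^ 2) * R3 ^ 2 + D3 * R3)
    {c : ℝ} (hc : 2 * (b1 + b2 * R2 + b3 * R2 * R3) ≤ c)
    (c1 : c ≤ 2 * (15 / 2 - 2 * x) - 2 - 2 * x - 1 / 10 * ((15 / 2 - 2 * x) ^ 2 -
      2 * (15 / 2 - 2 * x)) - (1 / 10) ^ 2 * (15 / 2 - 2 * x) ^ 2 / 2)
    (c2 : c ≤ 2 * (6 + 2 * x) - 2 * x - 1 / 10 * (6 + 2 * x) ^ 2 -
      (1 / 10) ^ 2 * (6 + 2 * x) ^ 2 / 2)
    (c3 : c ≤ 2 * (15 / 2 - 2 * x) + 2 * x - 1 / 10 * (15 / 2 - 2 * x) ^ 2 -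
      (1 / 10) ^ 2 * (15 / 2 - 2 * x) ^ 2 / 2)
    (c4 : c ≤ 2 * (6 + 2 * x) - 2 + 2 * x - 1 / 10 * ((6 + 2 * x) ^ 2 - 2 * (6 + 2 * x)) -
      (1 / 10) ^ 2 * (6 + 2 * x) ^ 2 / 2)
    {m : ℕ} (e : Fin m ≃ Fin N × Bool) {ξ : ℂ} (hξ : ‖ξ‖ < 1) :
    STAR L (zL L ∘ e) 3 x M ξ := by
  have hcard : m = 2 * N := by
    have := Fintype.card_congr e
    simp only [Fintype.card_fin, Fintype.card_prod, Fintype.card_bool] at this
    omega
  obtain ⟨n, rfl⟩ : ∃ n, m = n + 1 := ⟨m - 1, by omega⟩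
  have hz : ∀ i, ‖(zL L ∘ e) i‖ ≤ 1 := fun i => norm_zL hL _
  have hnr : (n:ℝ) + 1 = 2 * N := by exact_mod_cast hcard
  have hNr : (5:ℝ) ≤ N := by exact_mod_cast hN
  have hM0 : 0 ≤ M := (abs_nonneg _).trans (hM 1 one_mem)
  set S : ℝ := 2 * ∑ a, (L a).re with hSd
  have hS : ∑ i, (zL L ∘ e) i = (S:ℂ) := sum_zL L e
  have sp : ∑ a, (1 - (L a).re) = N - S / 2 := by
    rw [Finset.sum_sub_distrib, hSd]; simp
  have sm : ∑ a, (1 + (L a).re) = N + S / 2 := by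
    rw [Finset.sum_add_distrib, hSd]; simp
  rw [sp] at hp
  rw [sm] at hm
  have hV2 := VV_step (ξ := ξ) (z := zL L ∘ e) (n := n) hz hx0 hx1.le hξ hS 1 (D := D2) (R := R2)
    (by push_cast; rw [hnr]; linarith) (by rw [hnr]; linarith) hR2 (by push_cast; linarith)
  have hV3 := VV_step (ξ := ξ) (z := zL L ∘ e) (n := n) hz hx0 hx1.le hξ hS 2 (D := D3) (R := R3)
    (by push_cast; rw [hnr]; linarith) (by rw [hnr]; linarith) hR3 (by push_cast; linarith)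
  have hN2 : (0:ℝ) < 2 * N := by linarith
  have hE := E_low (N := 2 * N) (S := S) (x := x) (m := (2 * x + S) / (2 * N)) (c := c)
    (u0 := 1 / 10) (p0 := 6 + 2 * x) (q0 := 15 / 2 - 2 * x) hN2 (by linarith)
    (by field_simp) (by linarith) (by linarith) (by linarith) (by linarith) c1 c2 c3 c4
  refine star_real (n := n) (z := zL L ∘ e) hz hx0 hx1.le hξ hS (k := 3)
    (e := fun i => (hasseDeriv i (omR L)).eval x) hM0
    (b := fun j => if j = 1 then b1 else if j = 2 then b2 else b3)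
    (E := b1 + b2 * R2 + b3 * R2 * R3) (m := (2 * x + S) / (2 * N))
    (by rw [hnr]; field_simp) ?_ ?_ ?_ ?_
  · rw [hnr]; linarith
  · intro j hj1 hj2
    obtain rfl | rfl | rfl : j = 1 ∨ j = 2 ∨ j = 3 := by omega
    · rw [if_pos rfl]
      exact h1
    · rw [if_neg (by norm_num), if_pos rfl]
      exact h2
    · rw [if_neg (by norm_num), if_neg (by norm_num)]
      exact h3
  · intro j
    split_ifs <;> assumption
  · rw [Finset.sum_range_succ, Finset.sum_range_succ, Finset.sum_range_one]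
    norm_num
    norm_num at hV2 hV3
    have a1 := mul_le_mul_of_nonneg_left hV2 hb2
    have a2 := mul_le_mul_of_nonneg_left hV3 hb3
    have a3 := mul_le_mul_of_nonneg_left hV2 (mul_nonneg hb3 hR3)
    linarith

end bounds

/-- The statement of order `3` in the middle region for `N ≥ 5` pairs. -/
theorem midH_three_big {N : ℕ} (hN : 5 ≤ N) : MidH N 3 := by
  intro L x hL hx0 hx1 hp hm _ hRR
  obtain ⟨a, ha⟩ := hRR
  have t1 : thr N 3 = 15 / 4 := by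
    unfold thr Pool.Agent.HHalfC.cth
    rw [if_neg (by norm_num), if_neg (by norm_num), if_pos rfl, if_neg (by omega)]
  have t2 : Pool.Agent.HHalfB.bal 3 = 3 := by
    unfold Pool.Agent.HHalfB.bal
    norm_num
  rw [t1] at hp
  rw [t2] at hm
  have hx : x ∈ Icc (-1:ℝ) 1 := ⟨by linarith, hx1.le⟩
  have hcard : Fintype.card (Fin (2 * N)) = Fintype.card (Fin N × Bool) := by
    simp only [Fintype.card_fin, Fintype.card_prod, Fintype.card_bool]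
    omega
  refine pw_of_star hL hx (Fintype.equivOfCardEq hcard) (ρ0 := 0) zero_lt_one ?_
  intro M hM ξ _ hξ
  have b1a := k3_b1a hL hN hM hx
  have b1b := k3_b1b hL hN hM hx
  have b2b := k3_b2b hL hN hM hx0 hx1.le b1a
  have b3a := k3_b3a hL hN hM hx
  have b3b := k3_b3b hL hN hM hx ha.le
  have hs : 0 < 1 - x := by linarith
  rcases le_or_gt x (3 / 10) with i1 | i1
  · refine k3_star hL hN hx0 hx1 hp hm hM b1a b2b b3a (by positivity) (by positivity)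
      (by positivity) (R2 := 9 / 25) (R3 := 13 / 25) (D2 := 5) (D3 := 22 / 5) (by norm_num)
      (by norm_num) (by linarith) (by linarith) (by linarith) (by linarith) (by nlinarith)
      (by nlinarith) le_rfl ?_ ?_ ?_ ?_ _ hξ
    all_goals nlinarith [mul_nonneg hx0 hx0, mul_nonneg hx0 (sub_nonneg.2 i1),
      mul_nonneg (mul_nonneg hx0 hx0) hx0]
  rcases le_or_gt x (11 / 20) with i2 | i2
  · have b2 := k3_b2a hL hN hM hx (g := 3 / 2 * (1 - x)) (by linarith) le_rfl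
    refine k3_star hL hN hx0 hx1 hp hm hM b1a b2 b3a (by positivity) (by positivity)
      (by positivity) (R2 := 11 / 25) (R3 := 67 / 100) (D2 := 13 / 2 - 5 * x)
      (D3 := 13 / 2 - 7 * x) (by norm_num)
      (by norm_num) le_rfl (by linarith) le_rfl (by linarith) (by nlinarith)
      (by nlinarith) le_rfl ?_ ?_ ?_ ?_ _ hξ
    all_goals nlinarith [mul_nonneg (sub_nonneg.2 i1.le) (sub_nonneg.2 i2),
      mul_nonneg hx0 (mul_nonneg (sub_nonneg.2 i1.le) (sub_nonneg.2 i2))]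
  rcases le_or_gt x (7 / 10) with i3 | i3
  · have b2 := k3_b2a hL hN hM hx (g := 3 / 2 * (1 - x)) (by linarith) le_rfl
    refine k3_star hL hN hx0 hx1 hp hm hM b1b b2 b3a (by positivity) (by positivity)
      (by positivity) (R2 := 53 / 100) (R3 := 89 / 100) (D2 := 13 / 2 - 5 * x)
      (D3 := 13 / 2 - 7 * x) (by norm_num)
      (by norm_num) le_rfl (by linarith) le_rfl (by linarith) (by nlinarith)
      (by nlinarith) le_rfl ?_ ?_ ?_ ?_ _ hξ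
    all_goals nlinarith [mul_nonneg (sub_nonneg.2 i2.le) (sub_nonneg.2 i3),
      mul_nonneg hx0 (mul_nonneg (sub_nonneg.2 i2.le) (sub_nonneg.2 i3))]
  rcases le_or_gt x (17 / 20) with i4 | i4
  · have b2 := k3_b2a hL hN hM hx (g := 9 / 20) (by norm_num) (by linarith)
    refine k3_star hL hN hx0 hx1 hp hm hM b1b b2 b3a (by positivity) (by positivity)
      (by positivity) (R2 := 71 / 100) (R3 := 71 / 50) (D2 := 13 / 2 - 5 * x)
      (D3 := 13 / 2 - 7 * x) (by norm_num)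
      (by norm_num) le_rfl (by linarith) le_rfl (by linarith) (by nlinarith)
      (by nlinarith) le_rfl ?_ ?_ ?_ ?_ _ hξ
    all_goals nlinarith [mul_nonneg (sub_nonneg.2 i3.le) (sub_nonneg.2 i4),
      mul_nonneg hx0 (mul_nonneg (sub_nonneg.2 i3.le) (sub_nonneg.2 i4))]
  rcases le_or_gt x (19 / 20) with i5 | i5
  · have b2 := k3_b2a hL hN hM hx (g := 1 / 3) le_rfl (by linarith)
    refine k3_star hL hN hx0 hx1 hp hm hM b1b b2 b3a (by positivity) (by positivity)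
      (by positivity) (R2 := 99 / 100) (R3 := 3) (D2 := 13 / 2 - 5 * x)
      (D3 := 13 / 2 - 7 * x) (by norm_num)
      (by norm_num) le_rfl (by linarith) le_rfl (by linarith) (by nlinarith)
      (by nlinarith) le_rfl ?_ ?_ ?_ ?_ _ hξ
    all_goals nlinarith [mul_nonneg (sub_nonneg.2 i4.le) (sub_nonneg.2 i5),
      mul_nonneg hx0 (mul_nonneg (sub_nonneg.2 i4.le) (sub_nonneg.2 i5))]
  · have b2 := k3_b2a hL hN hM hx (g := 1 / 3) le_rfl (by linarith)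
    refine k3_star hL hN hx0 hx1 hp hm hM b1b b2 b3b (by positivity) (by positivity)
      (by positivity) (R2 := 4 / 3) (R3 := 3 / 20 / (1 - x)) (D2 := 13 / 2 - 5 * x)
      (D3 := 13 / 2 - 7 * x) (by norm_num)
      (by positivity) le_rfl (by linarith) le_rfl (by linarith) (by nlinarith)
      ?_ (c := 2 * ((3 * (1 - x) + 3 / 4) + (3 * (1 - x) ^ 2 + 1 / 3) * (4 / 3) +
        (3 / 4 + 3 / 4 * (1 - x) + (1 - x) ^ 2) * (4 / 3) * (3 / 20))) ?_ ?_ ?_ ?_ ?_ _ hξ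
    · have e2 : 4 * (1 - x ^ 2) * (3 / 20 / (1 - x)) ^ 2 + (13 / 2 - 7 * x) *
          (3 / 20 / (1 - x)) =
          (4 * (1 + x) * (3 / 20) ^ 2 + (13 / 2 - 7 * x) * (3 / 20)) / (1 - x) := by
        field_simp
        ring
      rw [e2, le_div_iff₀ hs]
      nlinarith
    · have e3 : (3 / 4 * (1 - x) + 3 / 4 * (1 - x) ^ 2 + (1 - x) ^ 3) * (4 / 3) *
          (3 / 20 / (1 - x)) =
          (3 / 4 + 3 / 4 * (1 - x) + (1 - x) ^ 2) * (4 / 3) * ((1 - x) * (3 / 20 / (1 - x))) := by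
        ring
      have e4 : (1 - x) * (3 / 20 / (1 - x)) = 3 / 20 := by field_simp
      rw [e3, e4]
    all_goals nlinarith

end Pool.Agent.HFin
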