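import Pool.Agent.HStar.Asm

/-!
# Reflection `x ↦ -x` for the pointwise bound
-/

set_option autoImplicit false

namespace Pool.Agent.HFin

open Complex Set ComplexConjugate Polynomial Pool.Agent.HHalf Pool.Agent.HStar

theorem om_zL_neg {N : ℕ} (L : Fin N → ℂ) (w : ℂ) :
    (om (zL (fun a => - L a))).eval w = (om (zL L)).eval (-w) := by
  rw [om_zL, om_zL, Polynomial.eval_prod, Polynomial.eval_prod]
  refine Finset.prod_congr rfl fun a _ => ?_
  unfold pr
  simp only [eval_mul, eval_sub, eval_X, eval_C, map_neg, eval_neg]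
  ring

theorem iter_neg (k : ℕ) (f : ℂ → ℂ) (w : ℂ) :
    ‖iteratedDeriv k (fun w => f (-w)) w‖ = ‖iteratedDeriv k f (-w)‖ := by
  rw [iteratedDeriv_comp_neg, norm_smul]
  simp

/-- It is enough to know the bound for the reflected list at `-x`. -/
theorem PW_mirror {N : ℕ} {L : Fin N → ℂ} {k : ℕ} {x : ℝ} (h : PW (fun a => - L a) k (-x)) :
    PW L k x := by
  intro g hg hb
  obtain ⟨F, hF⟩ : ∃ F : ℂ → ℂ, F = fun w => (om (zL L)).eval w * g w := ⟨_, rfl⟩
  obtain ⟨G, hG⟩ : ∃ G : ℂ → ℂ, G = fun w => (om (zL L)).eval w := ⟨_, rfl⟩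
  have e1 : (fun w : ℂ => (om (zL (fun a => - L a))).eval w * g (-w)) = fun w => F (-w) := by
    funext w
    rw [hF]
    simp only [om_zL_neg]
  have e2 : (fun w : ℂ => (om (zL (fun a => - L a))).eval w) = fun w => G (-w) := by
    funext w
    rw [hG]
    simp only [om_zL_neg]
  rw [← hF] at hb ⊢
  rw [← hG]
  obtain ⟨y, hy, hxy⟩ := h (fun w => g (-w)) (hg.comp differentiable_neg) (by
    intro w hw
    rw [e1, iter_neg]
    exact hb (-w) (by rwa [norm_neg]))
  refine ⟨-y, ⟨by linarith [hy.2], by linarith [hy.1]⟩, ?_⟩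
  rw [e1, e2, iter_neg, iter_neg] at hxy
  push_cast at hxy ⊢
  rw [neg_neg] at hxy
  exact hxy

end Pool.Agent.HFin
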